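import Pool.Agent.Q240.Cay.Merge

namespace Pool.Agent.Q240.Cay

open Equiv
open scoped commutatorElement

/-- A Hamiltonian cycle in the Cayley digraph of `G` and `A`, as a permutation of `G` with one
cycle all of whose steps are right multiplications by elements of `A`. -/
def HC (G : Type*) [Group G] (A : Set G) : Prop :=
  ∃ φ : Perm G, (∀ g, g⁻¹ * φ g ∈ A) ∧ ∀ g h, φ.SameCycle g h

section
variable {G : Type*} [Group G] [Finite G] (M R : Subgroup G) [R.Normal]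

/-- The permutations we work with. -/
def Adm (a : G ⧸ R → G) : Set (Perm G) :=
  {φ | ∀ g, ∃ m ∈ M, φ g = g * (m⁻¹ * a (QuotientGroup.mk g) * m)}

end

theorem lift {G : Type*} [Group G] [Finite G] (M : Subgroup G) (hMn : M.Normal)
    (hab : ∀ x ∈ M, ∀ y ∈ M, x * y = y * x) (A : Set G)
    (hconj : ∀ a ∈ A, ∀ m ∈ M, m⁻¹ * a * m ∈ A) (R : Subgroup G) [R.Normal]
    (hR : R = ⁅(⊤ : Subgroup G), M⁆)
    (h : HC (G ⧸ R) ((QuotientGroup.mk : G → G ⧸ R) '' A)) : HC G A := by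
  classical
  obtain ⟨σ, hσ, hσc⟩ := h
  choose a haA ha using hσ
  have hRM : R ≤ M := by
    rw [hR]
    exact Subgroup.commutator_le_right ⊤ M
  have hRmem : ∀ g : G, ∀ m ∈ M, g⁻¹ * m⁻¹ * g * m ∈ R := by
    intro g m hm
    rw [hR]
    have := Subgroup.commutator_mem_commutator (H₁ := (⊤ : Subgroup G)) (H₂ := M)
      (Subgroup.mem_top g⁻¹) (M.inv_mem hm)
    simpa [commutatorElement_def] using this
  have hcj : ∀ g : G, ∀ m ∈ M, g⁻¹ * m * g ∈ M := by
    intro g m hm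
    simpa using hMn.conj_mem m hm g⁻¹
  have hcj' : ∀ g : G, ∀ m ∈ M, g * m * g⁻¹ ∈ M := fun g m hm => hMn.conj_mem m hm g
  have hmkR : ∀ g : G, ∀ r ∈ R, (QuotientGroup.mk (g * r) : G ⧸ R) = QuotientGroup.mk g := by
    intro g r hr
    rw [QuotientGroup.eq]
    simpa using R.inv_mem hr
  have hmka : ∀ g : G, ∀ m ∈ M,
      (QuotientGroup.mk (g * (m⁻¹ * a (QuotientGroup.mk g) * m)) : G ⧸ R) =
        σ (QuotientGroup.mk g) := by
    intro g m hm
    set b := a (QuotientGroup.mk g) with hb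
    have e : g * (m⁻¹ * b * m) = (g * b) * (b⁻¹ * m⁻¹ * b * m) := by group
    rw [e, hmkR _ _ (hRmem b m hm), QuotientGroup.mk_mul, hb, ha]
    group
  -- the initial permutation
  have hφ0 : ∃ φ0 : Perm G, φ0 ∈ Adm M R a := by
    have hinj : Function.Injective (fun g : G => g * a (QuotientGroup.mk g)) := by
      intro g g' hgg
      have e1 := hmka g 1 M.one_mem
      have e2 := hmka g' 1 M.one_mem
      have hgg' : g * a (QuotientGroup.mk g) = g' * a (QuotientGroup.mk g') := hgg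
      simp only [inv_one, one_mul, mul_one] at e1 e2
      rw [hgg', e2] at e1
      have e3 := σ.injective e1
      rw [e3] at hgg'
      exact mul_right_cancel hgg'
    refine ⟨Equiv.ofBijective _ (Finite.injective_iff_bijective.mp hinj), fun g => ?_⟩
    exact ⟨1, M.one_mem, by simp⟩
  obtain ⟨φ0, hφ0⟩ := hφ0
  obtain ⟨φ, hφ, hmax⟩ := Set.exists_max_image (Adm M R a)
    (fun φ => Set.ncard {p : G × G | φ.SameCycle p.1 p.2}) (Set.toFinite _) ⟨φ0, hφ0⟩
  have hmkφ : ∀ g, (QuotientGroup.mk (φ g) : G ⧸ R) = σ (QuotientGroup.mk g) := by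
    intro g
    obtain ⟨m, hm, e⟩ := hφ g
    rw [e, hmka g m hm]
  -- claim 1
  have c1 : ∀ g : G, ∀ m ∈ M,
      φ.SameCycle g (g * (m⁻¹ * (a (QuotientGroup.mk g) * m * (a (QuotientGroup.mk g))⁻¹))) := by
    intro g m hm
    by_contra hns
    set b := a (QuotientGroup.mk g) with hb
    set n := m⁻¹ * (b * m * b⁻¹) with hn
    have hbm := hcj' b m hm
    have hnM : n ∈ M := M.mul_mem (M.inv_mem hm) hbm
    have hnR : n ∈ R := by
      have := hRmem b⁻¹ (m⁻¹) (M.inv_mem hm)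
      simp only [inv_inv] at this
      have e : n = b * m * b⁻¹ * m⁻¹ := hab _ (M.inv_mem hm) _ hbm
      rw [e]
      exact this
    have hmem : φ * swap g (g * n) ∈ Adm M R a := by
      intro z
      obtain ⟨m1, hm1, e1⟩ := hφ g
      obtain ⟨m2, hm2, e2⟩ := hφ (g * n)
      rw [hmkR g n hnR, ← hb] at e2
      rw [← hb] at e1
      have hbinv : ∀ y ∈ M, b * y * b⁻¹ ∈ M := hcj' b
      by_cases hz : z = g
      · subst hz
        refine ⟨m2 * m, M.mul_mem hm2 hm, ?_⟩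
        rw [Perm.mul_apply, swap_apply_left, e2, ← hb, hn]
        have e3 := hab _ hbm _ (M.inv_mem hm2)
        calc z * (m⁻¹ * (b * m * b⁻¹)) * (m2⁻¹ * b * m2)
            = z * (m⁻¹ * ((b * m * b⁻¹) * m2⁻¹) * b * m2) := by group
          _ = z * (m⁻¹ * (m2⁻¹ * (b * m * b⁻¹)) * b * m2) := by rw [e3]
          _ = z * (m⁻¹ * m2⁻¹ * b * (m * m2)) := by group
          _ = z * (m⁻¹ * m2⁻¹ * b * (m2 * m)) := by rw [hab m hm m2 hm2]
          _ = z * ((m2 * m)⁻¹ * b * (m2 * m)) := by group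
      · by_cases hz2 : z = g * n
        · refine ⟨m1 * m⁻¹, M.mul_mem hm1 (M.inv_mem hm), ?_⟩
          rw [hz2, Perm.mul_apply, swap_apply_right, e1, hmkR g n hnR, ← hb]
          have e3 := hab _ (hcj' b _ (M.inv_mem hm)) _ (M.inv_mem hm1)
          have e4 := hab _ hm _ (hcj' b _ (M.inv_mem hm))
          have e5 := hab _ hm1 _ (M.inv_mem hm)
          have e6 : n⁻¹ = m * (b * m⁻¹ * b⁻¹) := by
            rw [e4, hn]; group
          have e7 : g * (m1⁻¹ * b * m1) = g * n * (n⁻¹ * (m1⁻¹ * b * m1)) := by group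
          rw [e7, e6]
          congr 1
          calc m * (b * m⁻¹ * b⁻¹) * (m1⁻¹ * b * m1)
              = m * ((b * m⁻¹ * b⁻¹) * m1⁻¹) * b * m1 := by group
            _ = m * (m1⁻¹ * (b * m⁻¹ * b⁻¹)) * b * m1 := by rw [e3]
            _ = m * m1⁻¹ * b * (m⁻¹ * m1) := by group
            _ = m * m1⁻¹ * b * (m1 * m⁻¹) := by rw [e5]
            _ = (m1 * m⁻¹)⁻¹ * b * (m1 * m⁻¹) := by group
        · obtain ⟨m3, hm3, e3⟩ := hφ z
          refine ⟨m3, hm3, ?_⟩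
          rw [Perm.mul_apply, swap_apply_of_ne_of_ne hz hz2, e3]
    have hle := hmax _ hmem
    have hlt : Set.ncard {p : G × G | φ.SameCycle p.1 p.2} <
        Set.ncard {p : G × G | (φ * swap g (g * n)).SameCycle p.1 p.2} := by
      apply Set.ncard_lt_ncard _ (Set.toFinite _)
      refine ⟨fun p hp => merge φ hns hp, fun hsub => ?_⟩
      have h1 : ((g, g * n) : G × G) ∈ {p : G × G | (φ * swap g (g * n)).SameCycle p.1 p.2} :=
        merge_aux φ hns
      exact hns (hsub h1)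
    exact absurd hle (not_le.mpr hlt)
  -- the stabilising sets
  let K : G → Set G := fun x => {n | n ∈ R ∧ ∀ g, (QuotientGroup.mk g : G ⧸ R) =
    QuotientGroup.mk x → φ.SameCycle g (g * n)}
  have hK1 : ∀ x, (1 : G) ∈ K x := fun x => ⟨R.one_mem, fun g _ => by
    rw [mul_one]⟩
  have hKmul : ∀ x n n', n ∈ K x → n' ∈ K x → n * n' ∈ K x := by
    intro x n n' hn hn'
    refine ⟨R.mul_mem hn.1 hn'.1, fun g hg => ?_⟩
    rw [← mul_assoc]
    exact (hn.2 g hg).trans (hn'.2 (g * n) (by rw [hmkR g n hn.1, hg]))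
  have hKcongr : ∀ x y : G, (QuotientGroup.mk x : G ⧸ R) = QuotientGroup.mk y → K x = K y := by
    intro x y hxy
    simp only [K, hxy]
  -- the step of the cyclic order, on representatives
  have hstep : ∀ x : G, (QuotientGroup.mk (x * a (QuotientGroup.mk x)) : G ⧸ R) =
      σ (QuotientGroup.mk x) := by
    intro x
    have := hmka x 1 M.one_mem
    simpa using this
  have hpre : ∀ x g : G, (QuotientGroup.mk g : G ⧸ R) =
      QuotientGroup.mk (x * a (QuotientGroup.mk x)) →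
      (QuotientGroup.mk (φ.symm g) : G ⧸ R) = QuotientGroup.mk x := by
    intro x g hg
    apply σ.injective
    rw [← hmkφ, Equiv.apply_symm_apply, hg, hstep]
  -- (b)
  have hb : ∀ x : G, ∀ m ∈ M, (a (QuotientGroup.mk x))⁻¹ * m⁻¹ * a (QuotientGroup.mk x) * m ∈
      K (x * a (QuotientGroup.mk x)) := by
    intro x m hm
    set b := a (QuotientGroup.mk x) with hbdef
    refine ⟨hRmem b m hm, fun g hg => ?_⟩
    set w := b⁻¹ * m⁻¹ * b * m with hw
    have hwR : w ∈ R := hRmem b m hm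
    have hg1 := hpre x g hg
    have hg2 := hpre x (g * w) (by rw [hmkR g w hwR, hg])
    obtain ⟨m1, hm1, e1⟩ := hφ (φ.symm g)
    obtain ⟨m2, hm2, e2⟩ := hφ (φ.symm (g * w))
    rw [hg1, ← hbdef, Equiv.apply_symm_apply] at e1
    rw [hg2, ← hbdef, Equiv.apply_symm_apply] at e2
    have hmm : m1 * m * m2⁻¹ ∈ M := M.mul_mem (M.mul_mem hm1 hm) (M.inv_mem hm2)
    have hc := c1 (φ.symm g) (m1 * m * m2⁻¹) hmm
    rw [hg1, ← hbdef] at hc
    have key : φ.symm (g * w) = φ.symm g * ((m1 * m * m2⁻¹)⁻¹ * (b * (m1 * m * m2⁻¹) * b⁻¹)) := by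
      have e3 : φ.symm (g * w) = g * w * (m2⁻¹ * b⁻¹ * m2) := by
        conv_rhs => rw [e2]
        group
      rw [e3, hw]
      conv_lhs => rw [e1]
      have hbm := hcj' b m hm
      have hbm1 := hcj' b m1 hm1
      have hbm2 := hcj' b _ (M.inv_mem hm2)
      have f1 := hab _ hbm1 _ (M.inv_mem hm)
      have f2 := hab _ (hcj' b _ (M.mul_mem (M.mul_mem hm1 hm) (M.inv_mem hm2))) _ hm2
      calc φ.symm g * (m1⁻¹ * b * m1) * (b⁻¹ * m⁻¹ * b * m) * (m2⁻¹ * b⁻¹ * m2)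
          = φ.symm g * (m1⁻¹ * ((b * m1 * b⁻¹) * m⁻¹) * (b * m * m2⁻¹ * b⁻¹) * m2) := by group
        _ = φ.symm g * (m1⁻¹ * (m⁻¹ * (b * m1 * b⁻¹)) * (b * m * m2⁻¹ * b⁻¹) * m2) := by rw [f1]
        _ = φ.symm g * (m1⁻¹ * m⁻¹ * ((b * (m1 * m * m2⁻¹) * b⁻¹) * m2)) := by group
        _ = φ.symm g * (m1⁻¹ * m⁻¹ * (m2 * (b * (m1 * m * m2⁻¹) * b⁻¹))) := by rw [f2]
        _ = φ.symm g * ((m1⁻¹ * m⁻¹) * m2 * (b * (m1 * m * m2⁻¹) * b⁻¹)) := by group
        _ = φ.symm g * (m2 * (m1⁻¹ * m⁻¹) * (b * (m1 * m * m2⁻¹) * b⁻¹)) := by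
            rw [hab _ (M.mul_mem (M.inv_mem hm1) (M.inv_mem hm)) _ hm2]
        _ = φ.symm g * (m2 * (m⁻¹ * m1⁻¹) * (b * (m1 * m * m2⁻¹) * b⁻¹)) := by
            rw [hab _ (M.inv_mem hm1) _ (M.inv_mem hm)]
        _ = φ.symm g * ((m1 * m * m2⁻¹)⁻¹ * (b * (m1 * m * m2⁻¹) * b⁻¹)) := by group
    rw [← key] at hc
    have s1 : φ.SameCycle (φ.symm g) g := ⟨1, by simp⟩
    have s2 : φ.SameCycle (φ.symm (g * w)) (g * w) := ⟨1, by simp⟩
    exact s1.symm.trans (hc.trans s2)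
  -- (c)
  have hcc : ∀ x n : G, n ∈ K x → (a (QuotientGroup.mk x))⁻¹ * n * a (QuotientGroup.mk x) ∈
      K (x * a (QuotientGroup.mk x)) := by
    intro x n hn
    set b := a (QuotientGroup.mk x) with hbdef
    have hnM : n ∈ M := hRM hn.1
    have hRn : b⁻¹ * n * b ∈ R := by
      have := (inferInstance : R.Normal).conj_mem n hn.1 b⁻¹
      simpa using this
    refine ⟨hRn, fun g hg => ?_⟩
    have hg1 := hpre x g hg
    have hs := hn.2 (φ.symm g) hg1
    obtain ⟨m1, hm1, e1⟩ := hφ (φ.symm g)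
    obtain ⟨m2, hm2, e2⟩ := hφ (φ.symm g * n)
    rw [hg1, ← hbdef, Equiv.apply_symm_apply] at e1
    rw [hmkR _ _ hn.1, hg1, ← hbdef] at e2
    have hmu : m2 * m1⁻¹ ∈ M := M.mul_mem hm2 (M.inv_mem hm1)
    have key : φ (φ.symm g * n) =
        g * (b⁻¹ * n * b) * (b⁻¹ * (m2 * m1⁻¹)⁻¹ * b * (m2 * m1⁻¹)) := by
      have e3 : φ.symm g = g * (m1⁻¹ * b⁻¹ * m1) := by
        conv_rhs => rw [e1]
        group
      rw [e2]
      conv_lhs => rw [e3]
      have hbm : ∀ y ∈ M, b⁻¹ * y * b ∈ M := hcj b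
      have f1 := hab _ (M.inv_mem hm1) _ (hbm _ (M.mul_mem (M.mul_mem hm1 hnM) (M.inv_mem hm2)))
      calc g * (m1⁻¹ * b⁻¹ * m1) * n * (m2⁻¹ * b * m2)
          = g * (m1⁻¹ * (b⁻¹ * (m1 * n * m2⁻¹) * b)) * m2 := by group
        _ = g * ((b⁻¹ * (m1 * n * m2⁻¹) * b) * m1⁻¹) * m2 := by rw [f1]
        _ = g * (b⁻¹ * (n * m1 * m2⁻¹) * b) * (m1⁻¹ * m2) := by rw [hab m1 hm1 n hnM]; group
        _ = g * (b⁻¹ * (n * m1 * m2⁻¹) * b) * (m2 * m1⁻¹) := by
            rw [hab _ (M.inv_mem hm1) _ hm2]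
        _ = g * (b⁻¹ * n * b) * (b⁻¹ * (m2 * m1⁻¹)⁻¹ * b * (m2 * m1⁻¹)) := by group
    have hwb := (hb x (m2 * m1⁻¹) hmu).2 (g * (b⁻¹ * n * b)) (by rw [hmkR _ _ hRn, hg])
    rw [← hbdef, ← key] at hwb
    have s1 : φ.SameCycle (φ.symm g) g := ⟨1, by simp⟩
    have s2 : φ.SameCycle (φ.symm g * n) (φ (φ.symm g * n)) := ⟨1, by simp⟩
    exact s1.symm.trans (hs.trans (s2.trans hwb.symm))
  have hind : ∀ (P : G → Prop) (g0 : G), P g0 → (∀ h, ∀ r ∈ R, P h → P (h * r)) →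
      (∀ h, P h → P (h * a (QuotientGroup.mk h))) → ∀ h, P h := by
    intro P g0 h0 hr hs h
    have hk : ∀ (k : ℕ) (h : G), (σ ^ k) (QuotientGroup.mk g0) = QuotientGroup.mk h → P h := by
      intro k
      induction k with
      | zero =>
        intro h e
        have e' : (QuotientGroup.mk g0 : G ⧸ R) = QuotientGroup.mk h := e
        rw [QuotientGroup.eq] at e'
        have := hr g0 _ e' h0
        simpa using this
      | succ k ih =>
        intro h e
        obtain ⟨y, hy⟩ := QuotientGroup.mk_surjective ((σ ^ k) (QuotientGroup.mk g0))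
        have h1 := hs y (ih y hy.symm)
        have e2 : (QuotientGroup.mk (y * a (QuotientGroup.mk y)) : G ⧸ R) =
            QuotientGroup.mk h := by
          rw [hstep, hy, ← e, pow_succ']; rfl
        rw [QuotientGroup.eq] at e2
        have := hr _ _ e2 h1
        rwa [mul_inv_cancel_left] at this
    obtain ⟨k, -, e⟩ := (hσc (QuotientGroup.mk g0) (QuotientGroup.mk h)).exists_pow_eq'
    exact hk k h e
  have hT : ∀ g0 h : G, ∀ n ∈ K g0, h⁻¹ * g0 * n * g0⁻¹ * h ∈ K h := by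
    intro g0 h n hn
    refine hind (fun h => h⁻¹ * g0 * n * g0⁻¹ * h ∈ K h) g0 (by simpa using hn) ?_ ?_ h
    · intro h r hr hh
      show (h * r)⁻¹ * g0 * n * g0⁻¹ * (h * r) ∈ K (h * r)
      have e : (h * r)⁻¹ * g0 * n * g0⁻¹ * (h * r) = h⁻¹ * g0 * n * g0⁻¹ * h := by
        have f := hab _ (hRM hh.1) _ (hRM hr)
        calc (h * r)⁻¹ * g0 * n * g0⁻¹ * (h * r) = r⁻¹ * ((h⁻¹ * g0 * n * g0⁻¹ * h) * r) := by
              group
          _ = r⁻¹ * (r * (h⁻¹ * g0 * n * g0⁻¹ * h)) := by rw [f]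
          _ = _ := by group
      rw [e, hKcongr (h * r) h (hmkR h r hr)]
      exact hh
    · intro h hh
      have := hcc h _ hh
      show (h * a (QuotientGroup.mk h))⁻¹ * g0 * n * g0⁻¹ * (h * a (QuotientGroup.mk h)) ∈ _
      have e : (h * a (QuotientGroup.mk h))⁻¹ * g0 * n * g0⁻¹ * (h * a (QuotientGroup.mk h)) =
          (a (QuotientGroup.mk h))⁻¹ * (h⁻¹ * g0 * n * g0⁻¹ * h) * a (QuotientGroup.mk h) := by
        group
      rw [e]
      exact this
  have hT2 : ∀ h : G, ∀ m ∈ M, h⁻¹ * m⁻¹ * h * m ∈ K h := by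
    intro h m hm
    refine hind (fun h => h⁻¹ * m⁻¹ * h * m ∈ K h) 1 (by simpa using hK1 1) ?_ ?_ h
    · intro h r hr hh
      show (h * r)⁻¹ * m⁻¹ * (h * r) * m ∈ K (h * r)
      have e : (h * r)⁻¹ * m⁻¹ * (h * r) * m = h⁻¹ * m⁻¹ * h * m := by
        have f := hab _ (hcj h _ (M.inv_mem hm)) _ (hRM hr)
        calc (h * r)⁻¹ * m⁻¹ * (h * r) * m = r⁻¹ * ((h⁻¹ * m⁻¹ * h) * r) * m := by group
          _ = r⁻¹ * (r * (h⁻¹ * m⁻¹ * h)) * m := by rw [f]
          _ = _ := by group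
      rw [e, hKcongr (h * r) h (hmkR h r hr)]
      exact hh
    · intro h hh
      have h1 := hcc h _ hh
      have h2 := hb h m hm
      have h3 := hKmul _ _ _ h1 h2
      show (h * a (QuotientGroup.mk h))⁻¹ * m⁻¹ * (h * a (QuotientGroup.mk h)) * m ∈ _
      have e : (h * a (QuotientGroup.mk h))⁻¹ * m⁻¹ * (h * a (QuotientGroup.mk h)) * m =
          (a (QuotientGroup.mk h))⁻¹ * (h⁻¹ * m⁻¹ * h * m) * a (QuotientGroup.mk h) *
            ((a (QuotientGroup.mk h))⁻¹ * m⁻¹ * a (QuotientGroup.mk h) * m) := by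
        group
      rw [e]
      exact h3
  have hKinv : ∀ x n, n ∈ K x → n⁻¹ ∈ K x := by
    intro x n hn
    refine ⟨R.inv_mem hn.1, fun g hg => ?_⟩
    have := hn.2 (g * n⁻¹) (by rw [hmkR g _ (R.inv_mem hn.1), hg])
    simp only [inv_mul_cancel_right] at this
    exact this.symm
  let K1 : Subgroup G :=
    { carrier := K 1
      mul_mem' := fun {x y} hx hy => hKmul 1 x y hx hy
      one_mem' := hK1 1
      inv_mem' := fun {x} hx => hKinv 1 x hx }
  have hRK : R ≤ K1 := by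
    rw [hR, Subgroup.commutator_le]
    intro g _ m hm
    have h1 := hT g 1 _ (hT2 g m hm)
    have e : ⁅g, m⁆ = 1⁻¹ * g * (g⁻¹ * m⁻¹ * g * m) * g⁻¹ * 1 := by
      have f := hab _ (hcj' g m hm) _ (M.inv_mem hm)
      rw [commutatorElement_def, f]
      group
    rw [e]
    exact h1
  have hKx : ∀ x : G, ∀ r ∈ R, r ∈ K x := by
    intro x r hr
    have h1 : x * r * x⁻¹ ∈ R := (inferInstance : R.Normal).conj_mem r hr x
    have h2 := hT 1 x _ (hRK h1)
    have e : x⁻¹ * 1 * (x * r * x⁻¹) * 1⁻¹ * x = r := by group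
    rw [e] at h2
    exact h2
  refine ⟨φ, fun g => ?_, fun g h => ?_⟩
  · obtain ⟨m, hm, e⟩ := hφ g
    rw [e, inv_mul_cancel_left]
    exact hconj _ (haA _) m hm
  · obtain ⟨k, -, e⟩ := (hσc (QuotientGroup.mk g) (QuotientGroup.mk h)).exists_pow_eq'
    have hmk : ∀ k : ℕ, (QuotientGroup.mk ((φ ^ k) g) : G ⧸ R) = (σ ^ k) (QuotientGroup.mk g) := by
      intro k
      induction k with
      | zero => rfl
      | succ k ih =>
        have e1 : (φ ^ (k + 1)) g = φ ((φ ^ k) g) := by rw [pow_succ']; rfl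
        have e2 : (σ ^ (k + 1)) (QuotientGroup.mk g) = σ ((σ ^ k) (QuotientGroup.mk g)) := by
          rw [pow_succ']; rfl
        rw [e1, hmkφ, ih, e2]
    have e2 : (QuotientGroup.mk ((φ ^ k) g) : G ⧸ R) = QuotientGroup.mk h := by rw [hmk, e]
    have e3 := QuotientGroup.eq.mp e2
    have h4 := (hKx ((φ ^ k) g) _ e3).2 _ rfl
    rw [mul_inv_cancel_left] at h4
    exact Perm.SameCycle.trans ⟨(k : ℤ), by rw [zpow_natCast]⟩ h4

end Pool.Agent.Q240.Cay
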