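import Pool.Agent.Q240.Cay.Cyl
import Pool.Agent.Q240.Cay.Lift

namespace Pool.Agent.Q240.Cay

open Equiv

lemma transport_same {X Y : Type*} [Finite X] (e : X ≃ Y) (Φ : Perm X)
    (h : ∀ x y, Φ.SameCycle x y) (x y : Y) : (e.permCongr Φ).SameCycle x y := by
  obtain ⟨n, hn⟩ := samecycle_nat (h (e.symm x) (e.symm y))
  refine ⟨(n : ℤ), ?_⟩
  rw [zpow_natCast]
  have : ∀ n : ℕ, ((e.permCongr Φ) ^ n) x = e ((Φ ^ n) (e.symm x)) := by
    intro n
    induction n with
    | zero => simp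
    | succ n ih =>
      have e1 : ((e.permCongr Φ) ^ (n + 1)) x = (e.permCongr Φ) (((e.permCongr Φ) ^ n) x) := by
        rw [pow_succ']; rfl
      have e2 : (Φ ^ (n + 1)) (e.symm x) = Φ ((Φ ^ n) (e.symm x)) := by rw [pow_succ']; rfl
      rw [e1, e2, ih]
      simp [Equiv.permCongr_apply]
  rw [this, hn]
  simp

/-- Hamiltonian cycle inside a subgroup. -/
def PH {G : Type*} [Group G] (A : Set G) (H : Subgroup G) : Prop :=
  ∃ φ : Perm H, (∀ h : H, ((h : G)⁻¹ * (φ h : G)) ∈ A) ∧ ∀ x y, φ.SameCycle x y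

theorem abelian {G : Type*} [Group G] [Finite G] (hc : ∀ x y : G, x * y = y * x) (A : Set G)
    (hA : A.Nonempty) (hs : ∀ a ∈ A, a⁻¹ ∈ A) (hg : Subgroup.closure A = ⊤) : HC G A := by
  classical
  by_cases htriv : ∀ a ∈ A, a = 1
  · have hbot : (⊤ : Subgroup G) = ⊥ := by
      rw [← hg, Subgroup.closure_eq_bot_iff]
      intro a ha
      exact htriv a ha
    have hone : ∀ g : G, g = 1 := by
      intro g
      have : g ∈ (⊤ : Subgroup G) := Subgroup.mem_top g
      rw [hbot] at this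
      exact Subgroup.mem_bot.mp this
    obtain ⟨a, ha⟩ := hA
    have h1 : (1 : G) ∈ A := by rw [← hone a]; exact ha
    exact ⟨1, fun g => by simpa using h1, fun g h => by rw [hone g, hone h]⟩
  push Not at htriv
  obtain ⟨a0, ha0, hne0⟩ := htriv
  -- a first subgroup
  have hP0 : PH A (Subgroup.zpowers a0) ∧ Subgroup.zpowers a0 ≠ ⊥ := by
    refine ⟨⟨Equiv.mulRight ⟨a0, Subgroup.mem_zpowers a0⟩, fun h => ?_, ?_⟩, ?_⟩
    · simpa using ha0
    · rintro ⟨x, hx⟩ ⟨y, hy⟩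
      obtain ⟨i, rfl⟩ := Subgroup.mem_zpowers_iff.mp hx
      obtain ⟨j, rfl⟩ := Subgroup.mem_zpowers_iff.mp hy
      refine ⟨j - i, ?_⟩
      rw [Equiv.zpow_mulRight]
      ext
      simp [← zpow_add]
    · rw [Ne, Subgroup.zpowers_eq_bot]
      exact hne0
  obtain ⟨H, ⟨hPH, hHbot⟩, hmax⟩ := (Set.toFinite {H : Subgroup G | PH A H ∧ H ≠ ⊥}).exists_maximal
    ⟨_, hP0⟩
  by_cases htop : H = ⊤
  · subst htop
    obtain ⟨φ, h1, h2⟩ := hPH
    let e : (⊤ : Subgroup G) ≃ G := Subgroup.topEquiv.toEquiv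
    refine ⟨e.permCongr φ, fun g => ?_, transport_same e φ h2⟩
    have := h1 (e.symm g)
    exact this
  exfalso
  obtain ⟨a, haA, haH⟩ : ∃ a ∈ A, a ∉ H := by
    by_contra hcon
    push Not at hcon
    apply htop
    rw [eq_top_iff, ← hg, Subgroup.closure_le]
    exact hcon
  obtain ⟨ψ, hψ1, hψ2⟩ := hPH
  have hex : ∃ r : ℕ, 0 < r ∧ a ^ r ∈ H := ⟨orderOf a, orderOf_pos a, by
    rw [pow_orderOf_eq_one]; exact H.one_mem⟩
  set r := Nat.find hex with hr
  obtain ⟨hr0, hrH⟩ := Nat.find_spec hex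
  have hrmin : ∀ k, 0 < k → k < r → a ^ k ∉ H := fun k hk hkr hmem =>
    Nat.find_min hex hkr ⟨hk, hmem⟩
  rw [← hr] at hr0 hrH
  set H' := H ⊔ Subgroup.zpowers a with hH'
  have hHle : H ≤ H' := le_sup_left
  have haH' : a ∈ H' := (le_sup_right : Subgroup.zpowers a ≤ H') (Subgroup.mem_zpowers a)
  let f : H × Fin r → H' := fun p =>
    ⟨(p.1 : G) * a ^ p.2.val, H'.mul_mem (hHle p.1.2) (H'.pow_mem haH' _)⟩
  have hcomm : ∀ x y : G, Commute x y := hc
  have hfinj : Function.Injective f := by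
    rintro ⟨x, i⟩ ⟨y, j⟩ hxy
    have e : (x : G) * a ^ i.val = (y : G) * a ^ j.val := congrArg Subtype.val hxy
    have aux : ∀ (x y : H) (i j : Fin r), i.val ≤ j.val →
        (x : G) * a ^ i.val = (y : G) * a ^ j.val → i = j := by
      intro x y i j hij e
      by_contra hne
      have hlt : i.val < j.val := lt_of_le_of_ne hij (fun h => hne (Fin.ext h))
      have : a ^ (j.val - i.val) = (y : G)⁻¹ * x := by
        have e1 : a ^ j.val = a ^ (j.val - i.val) * a ^ i.val := by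
          rw [← pow_add, Nat.sub_add_cancel hij]
        rw [e1, ← mul_assoc] at e
        have e2 := mul_right_cancel e
        rw [e2]; group
      exact hrmin (j.val - i.val) (by omega) (by omega)
        (this ▸ H.mul_mem (H.inv_mem y.2) x.2)
    have hij : i = j := by
      rcases le_total i.val j.val with h | h
      · exact aux x y i j h e
      · exact (aux y x j i h e.symm).symm
    subst hij
    have := mul_right_cancel e
    ext
    · exact this
    · rfl
  have hfsurj : Function.Surjective f := by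
    rintro ⟨g, hgm⟩
    have hgm' : g ∈ H ⊔ Subgroup.zpowers a := hgm
    let _ : CommGroup G := { (inferInstance : Group G) with mul_comm := hc }
    obtain ⟨y, hy, z, hz, hyz⟩ := (Subgroup.mem_sup (s := H) (t := Subgroup.zpowers a)).mp hgm'
    obtain ⟨i, rfl⟩ := Subgroup.mem_zpowers_iff.mp hz
    have hrpos : (0 : ℤ) < r := by exact_mod_cast hr0
    have h1 := Int.emod_add_mul_ediv i r
    have h2 := Int.emod_nonneg i (ne_of_gt hrpos)
    have h3 := Int.emod_lt_of_pos i hrpos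
    refine ⟨(⟨y * (a ^ r) ^ (i / r), H.mul_mem hy (H.zpow_mem hrH _)⟩, ⟨(i % r).toNat, by omega⟩), ?_⟩
    ext
    show y * (a ^ r) ^ (i / r) * a ^ (i % r).toNat = g
    rw [← hyz, mul_assoc]
    congr 1
    rw [← zpow_natCast a (i % r).toNat, Int.toNat_of_nonneg h2, ← zpow_natCast a r, ← zpow_mul,
      ← zpow_add]
    congr 1
    linarith
  let e : H × Fin r ≃ H' := Equiv.ofBijective f ⟨hfinj, hfsurj⟩
  have hu : ψ 1 ≠ 1 := by
    intro h1
    apply hHbot
    rw [Subgroup.eq_bot_iff_forall]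
    intro x hx
    have := invariant (φ := ψ) (fun z : H => z = 1) (fun z hz => by rw [hz]; exact h1)
      (x := 1) (y := ⟨x, hx⟩) rfl (hψ2 _ _)
    simpa using congrArg Subtype.val this
  obtain ⟨Φ, hΦ1, hΦ2⟩ := cylinder ψ hψ2 1 hu r
  have hPH' : PH A H' := by
    refine ⟨e.permCongr Φ, fun g => ?_, transport_same e Φ hΦ2⟩
    obtain ⟨p, rfl⟩ := e.surjective g
    have e1 : e.permCongr Φ (e p) = e (Φ p) := by simp [Equiv.permCongr_apply]
    rw [e1]
    have hstp := hΦ1 p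
    set q := Φ p with hq
    show ((p.1 : G) * a ^ p.2.val)⁻¹ * ((q.1 : G) * a ^ q.2.val) ∈ A
    have hrew : ((p.1 : G) * a ^ p.2.val)⁻¹ * ((q.1 : G) * a ^ q.2.val) =
        ((p.1 : G)⁻¹ * q.1) * ((a ^ p.2.val)⁻¹ * a ^ q.2.val) := by
      have c1 := hc ((a ^ p.2.val)⁻¹) ((p.1 : G)⁻¹ * q.1)
      calc ((p.1 : G) * a ^ p.2.val)⁻¹ * ((q.1 : G) * a ^ q.2.val)
          = ((a ^ p.2.val)⁻¹ * ((p.1 : G)⁻¹ * q.1)) * a ^ q.2.val := by group
        _ = (((p.1 : G)⁻¹ * q.1) * (a ^ p.2.val)⁻¹) * a ^ q.2.val := by rw [c1]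
        _ = _ := by group
    rw [hrew]
    rcases hstp with ⟨h1, h2 | h2⟩ | ⟨h1, h2 | h2⟩
    · rw [h1, h2, inv_mul_cancel, mul_one]
      exact hψ1 p.1
    · rw [h1, h2, inv_mul_cancel, mul_one]
      have := hs _ (hψ1 (ψ.symm p.1))
      rw [Equiv.apply_symm_apply] at this
      simpa using this
    · rw [h1, h2, inv_mul_cancel, one_mul, pow_succ, inv_mul_cancel_left]
      exact haA
    · rw [h1, h2, inv_mul_cancel, one_mul, pow_succ']
      have e3 : (a * a ^ q.2.val)⁻¹ * a ^ q.2.val = a⁻¹ := by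
        have c := hc a (a ^ q.2.val)
        rw [c]
        group
      rw [e3]
      exact hs a haA
  have hne : H' ≠ ⊥ := fun h => hHbot (by rw [eq_bot_iff, ← h]; exact hHle)
  have := hmax (⟨hPH', hne⟩ : H' ∈ {H : Subgroup G | PH A H ∧ H ≠ ⊥}) hHle
  exact haH (this haH')

end Pool.Agent.Q240.Cay
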