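import Pool.Agent.Q240.Cay.Abel

namespace Pool.Agent.Q240.Cay

universe u

open Equiv
open scoped commutatorElement

/-- `l` lists every element of the finite group `G` exactly once by its partial products, using
elements of `A` only. -/
structure IsListing {G : Type*} [Group G] (A : Set G) (l : List G) : Prop where
  length : l.length = Nat.card G
  mem : ∀ a ∈ l, a ∈ A
  lists : ∀ g : G, ∃! k : ℕ, 1 ≤ k ∧ k ≤ l.length ∧ (l.take k).prod = g

theorem listing_of_HC {G : Type*} [Group G] [Finite G] (A : Set G) (h : HC G A) :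
    ∃ l : List G, IsListing A l ∧ l.prod = 1 := by
  classical
  obtain ⟨φ, h1, h2⟩ := h
  have hex : ∃ m : ℕ, 0 < m ∧ (φ ^ m) 1 = 1 :=
    ⟨orderOf φ, orderOf_pos φ, by rw [pow_orderOf_eq_one]; rfl⟩
  set m := Nat.find hex with hm
  obtain ⟨hm0, hm1⟩ := Nat.find_spec hex
  rw [← hm] at hm0 hm1
  have hmin : ∀ k, 0 < k → k < m → (φ ^ k) 1 ≠ 1 := fun k hk hkm e => Nat.find_min hex hkm ⟨hk, e⟩
  have hadd : ∀ i j : ℕ, (φ ^ (i + j)) 1 = (φ ^ i) ((φ ^ j) 1) := by
    intro i j; rw [pow_add]; rfl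
  have hinj : ∀ i j : ℕ, i < m → j < m → (φ ^ i) 1 = (φ ^ j) 1 → i = j := by
    have aux : ∀ i j : ℕ, i ≤ j → j < m → (φ ^ i) 1 = (φ ^ j) 1 → i = j := by
      intro i j hij hj e
      by_contra hne
      have e1 : (φ ^ j) 1 = (φ ^ i) ((φ ^ (j - i)) 1) := by
        rw [← hadd, Nat.add_sub_cancel' hij]
      rw [e1] at e
      have e2 := (φ ^ i).injective e
      exact hmin (j - i) (by omega) (by omega) e2.symm
    intro i j hi hj e
    rcases le_total i j with h | h
    · exact aux i j h hj e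
    · exact (aux j i h hi e.symm).symm
  have hmod : ∀ k : ℕ, (φ ^ k) 1 = (φ ^ (k % m)) 1 := by
    intro k
    have h3 : ∀ q : ℕ, (φ ^ (m * q)) 1 = 1 := by
      intro q
      induction q with
      | zero => rfl
      | succ q ih => rw [Nat.mul_succ, hadd, hm1, ih]
    conv_lhs => rw [← Nat.mod_add_div k m, hadd, h3]
  have hsurj : ∀ g : G, ∃ k, k < m ∧ (φ ^ k) 1 = g := by
    intro g
    obtain ⟨k, hk⟩ := samecycle_nat (h2 1 g)
    exact ⟨k % m, Nat.mod_lt _ hm0, by rw [← hmod, hk]⟩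
  have hcard : m = Nat.card G := by
    let f : Fin m → G := fun k => (φ ^ k.val) 1
    have hf : Function.Bijective f := by
      constructor
      · intro i j e
        exact Fin.ext (hinj _ _ i.2 j.2 e)
      · intro g
        obtain ⟨k, hk, e⟩ := hsurj g
        exact ⟨⟨k, hk⟩, e⟩
    rw [← Nat.card_eq_of_bijective f hf, Nat.card_fin]
  let l : List G := List.ofFn (fun i : Fin m => ((φ ^ i.val) 1)⁻¹ * (φ ^ (i.val + 1)) 1)
  have hlen : l.length = m := by simp [l]
  have htake : ∀ k, k ≤ m → (l.take k).prod = (φ ^ k) 1 := by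
    intro k
    induction k with
    | zero => intro _; simp
    | succ k ih =>
      intro hk
      have hk' : k < l.length := by rw [hlen]; omega
      rw [List.take_succ_eq_append_getElem hk', List.prod_append, ih (by omega)]
      simp [l]
  refine ⟨l, ⟨by rw [hlen, hcard], ?_, ?_⟩, ?_⟩
  · intro a ha
    obtain ⟨i, rfl⟩ := (List.mem_ofFn' _ _).mp ha
    have e : (φ ^ (i.val + 1)) 1 = φ ((φ ^ i.val) 1) := by rw [pow_succ']; rfl
    show ((φ ^ i.val) 1)⁻¹ * (φ ^ (i.val + 1)) 1 ∈ A
    rw [e]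
    exact h1 _
  · intro g
    rw [hlen]
    obtain ⟨k, hk, e⟩ := hsurj g
    by_cases hk0 : k = 0
    · subst hk0
      refine ⟨m, ⟨hm0, le_refl m, ?_⟩, ?_⟩
      · rw [htake m (le_refl m), hm1]; exact e
      · rintro j ⟨hj1, hj2, hj3⟩
        by_contra hne
        rw [htake j hj2] at hj3
        exact hmin j (by omega) (by omega) (by rw [hj3]; exact e.symm)
    · refine ⟨k, ⟨by omega, by omega, ?_⟩, ?_⟩
      · rw [htake k (by omega)]; exact e
      · rintro j ⟨hj1, hj2, hj3⟩
        rw [htake j hj2] at hj3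
        by_cases hjm : j = m
        · exfalso
          rw [hjm, hm1] at hj3
          exact hmin k (by omega) hk (by rw [e, hj3])
        · exact hinj j k (by omega) hk (by rw [hj3, e])
  · have := htake m (le_refl m)
    rw [hm1, List.take_of_length_le (by omega)] at this
    exact this

/-- Every quotient of `G` by a normal subgroup `N` is abelian or has a noncentral abelian normal
subgroup `B / N`. -/
def QuotientsHaveAbelian (G : Type*) [Group G] : Prop :=
  ∀ N : Subgroup G, N.Normal → (∃ x y : G, ⁅x, y⁆ ∉ N) →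
    ∃ B : Subgroup G, B.Normal ∧ N ≤ B ∧ (∀ x ∈ B, ∀ y ∈ B, ⁅x, y⁆ ∈ N) ∧
      ∃ x ∈ B, ∃ y : G, ⁅x, y⁆ ∉ N

lemma quot_of (G : Type*) [Group G] (hG : QuotientsHaveAbelian G) (R : Subgroup G) [R.Normal] :
    QuotientsHaveAbelian (G ⧸ R) := by
  intro N hN hxy
  obtain ⟨x, y, hxy⟩ := hxy
  obtain ⟨x, rfl⟩ := QuotientGroup.mk'_surjective R x
  obtain ⟨y, rfl⟩ := QuotientGroup.mk'_surjective R y
  have hN' : (N.comap (QuotientGroup.mk' R)).Normal := hN.comap _
  obtain ⟨B, hB, hNB, hab, u, hu, v, huv⟩ := hG (N.comap (QuotientGroup.mk' R)) hN'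
    ⟨x, y, fun h => hxy (by rw [← map_commutatorElement]; exact h)⟩
  refine ⟨B.map (QuotientGroup.mk' R), hB.map _ (QuotientGroup.mk'_surjective R), ?_, ?_, ?_⟩
  · intro z hz
    obtain ⟨z, rfl⟩ := QuotientGroup.mk'_surjective R z
    exact Subgroup.mem_map_of_mem _ (hNB hz)
  · rintro _ ⟨a, ha, rfl⟩ _ ⟨b, hb, rfl⟩
    have := hab a ha b hb
    rw [← map_commutatorElement]
    exact this
  · exact ⟨QuotientGroup.mk' R u, Subgroup.mem_map_of_mem _ hu, QuotientGroup.mk' R v, fun h =>
      huv (by rw [← map_commutatorElement] at h; exact h)⟩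

theorem hc_of (n : ℕ) : ∀ (G : Type u) [Group G] [Finite G], Nat.card G ≤ n →
    QuotientsHaveAbelian G → ∀ A : Set G, A.Nonempty → (∀ a ∈ A, a⁻¹ ∈ A) →
    Subgroup.closure A = ⊤ → (∀ g : G, ∀ a ∈ A, g * a * g⁻¹ ∈ A) → HC G A := by
  induction n with
  | zero =>
    intro G _ _ hn
    have := Nat.card_pos (α := G)
    omega
  | succ n ih =>
    intro G _ _ hn hG A hA hs hg hc
    by_cases hcomm : ∀ x y : G, x * y = y * x
    · exact abelian hcomm A hA hs hg
    push Not at hcomm
    obtain ⟨x, y, hxy⟩ := hcomm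
    obtain ⟨B, hB, -, hab, u, hu, v, huv⟩ := hG ⊥ inferInstance
      ⟨x, y, fun h => hxy (commutatorElement_eq_one_iff_mul_comm.mp (Subgroup.mem_bot.mp h))⟩
    have hab' : ∀ x ∈ B, ∀ y ∈ B, x * y = y * x := fun x hx y hy =>
      commutatorElement_eq_one_iff_mul_comm.mp (Subgroup.mem_bot.mp (hab x hx y hy))
    set R : Subgroup G := ⁅(⊤ : Subgroup G), B⁆ with hR
    have : R.Normal := by rw [hR]; infer_instance
    have hRne : R ≠ ⊥ := by
      intro h
      apply huv
      have h1 : ⁅v, u⁆ ∈ R := Subgroup.commutator_mem_commutator (Subgroup.mem_top v) hu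
      rw [h, Subgroup.mem_bot] at h1
      rw [Subgroup.mem_bot, ← commutatorElement_inv, h1, inv_one]
    have hcardlt : Nat.card (G ⧸ R) < Nat.card G := by
      have h1 := Subgroup.card_eq_card_quotient_mul_card_subgroup R
      have h2 : 1 < Nat.card R := by
        rw [Subgroup.one_lt_card_iff_ne_bot]
        exact hRne
      have h3 : 0 < Nat.card (G ⧸ R) := Nat.card_pos
      rw [h1]
      nlinarith
    apply lift B hB hab' A (fun a ha m hm => by simpa using hc m⁻¹ a ha) R hR
    apply ih (G ⧸ R) (by omega) (quot_of G hG R)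
    · exact hA.image _
    · rintro _ ⟨a, ha, rfl⟩
      exact ⟨a⁻¹, hs a ha, rfl⟩
    · have h1 : (Subgroup.closure A).map (QuotientGroup.mk' R) = ⊤ := by
        rw [hg, ← MonoidHom.range_eq_map, MonoidHom.range_eq_top]
        exact QuotientGroup.mk'_surjective R
      rw [MonoidHom.map_closure] at h1
      exact h1
    · intro g a ha
      obtain ⟨a, ha, rfl⟩ := ha
      obtain ⟨g, rfl⟩ := QuotientGroup.mk_surjective g
      exact ⟨g * a * g⁻¹, hc g a ha, rfl⟩

end Pool.Agent.Q240.Cay
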