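import Pool.Agent.Q240.Cay.Tree
import Pool.Agent.Q240.Cay.Final

namespace Pool.Agent.Q240.Cay

open Equiv

lemma ph_zpowers {G : Type*} [Group G] [Finite G] (A : Set G) (a : G) (ha : a ∈ A) :
    PH A (Subgroup.zpowers a) := by
  refine ⟨Equiv.mulRight ⟨a, Subgroup.mem_zpowers a⟩, fun h => ?_, ?_⟩
  · simpa using ha
  · rintro ⟨x, hx⟩ ⟨y, hy⟩
    obtain ⟨i, rfl⟩ := Subgroup.mem_zpowers_iff.mp hx
    obtain ⟨j, rfl⟩ := Subgroup.mem_zpowers_iff.mp hy
    refine ⟨j - i, ?_⟩
    rw [Equiv.zpow_mulRight]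
    ext
    simp [← zpow_add]

lemma hc_of_ph {G : Type*} [Group G] [Finite G] (A : Set G) (h : PH A (⊤ : Subgroup G)) :
    HC G A := by
  obtain ⟨φ, h1, h2⟩ := h
  let e : (⊤ : Subgroup G) ≃ G := Subgroup.topEquiv.toEquiv
  refine ⟨e.permCongr φ, fun g => ?_, transport_same e φ h2⟩
  have := h1 (e.symm g)
  exact this

/-- One step of the construction. -/
lemma step {G : Type*} [Group G] [Finite G] (A : Set G) (hs : ∀ a ∈ A, a⁻¹ ∈ A)
    (H : Subgroup G) (hPH : PH A H) (S : Set G) (hc : ∀ g : G, ∀ a ∈ S, g * a * g⁻¹ ∈ A)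
    (L : Subgroup G) (hHS : H ≤ L) (hSL : S ⊆ L)
    (hLS : ∀ g ∈ L, ∃ k ∈ Subgroup.closure S, k⁻¹ * g ∈ H)
    (c : ℕ) (hcS : c = 0 → ∀ s ∈ S, s * s = 1)
    (hcard : Set.ncard S + c ≤ Nat.card H) : PH A L := by
  classical
  obtain ⟨ψ, hψA, hψ⟩ := hPH
  let TL : Set (G ⧸ H) := {x | ∃ g ∈ L, (QuotientGroup.mk g : G ⧸ H) = x}
  have hTL : ∀ g : G, (QuotientGroup.mk g : G ⧸ H) ∈ TL ↔ g ∈ L := by
    intro g
    constructor
    · rintro ⟨g', hg', e⟩
      have := QuotientGroup.eq.mp e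
      have h2 := L.mul_mem hg' (hHS this)
      simpa using h2
    · intro hg
      exact ⟨g, hg, rfl⟩
  obtain ⟨T, ⟨hT, h1T, hTsub⟩, hmax⟩ := (Set.toFinite {T : Set (G ⧸ H) | St A H ψ S c T ∧
      (QuotientGroup.mk 1 : G ⧸ H) ∈ T ∧ T ⊆ TL}).exists_maximal
    ⟨{(QuotientGroup.mk 1 : G ⧸ H)}, st_single A H ψ hψA hψ S c, rfl, by
      intro x hx
      rw [Set.mem_singleton_iff.mp hx]
      exact ⟨1, L.one_mem, rfl⟩⟩
  have hclosed : ∀ x ∈ T, ∀ s ∈ S, s • x ∈ T := by
    intro x hx s hsS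
    by_contra hcon
    have hnew := st_add A hs H ψ hψA hψ S hc c hcS hcard T hT x hx s hsS hcon
    have hmem : insert (s • x) T ∈ {T : Set (G ⧸ H) | St A H ψ S c T ∧
        (QuotientGroup.mk 1 : G ⧸ H) ∈ T ∧ T ⊆ TL} := by
      refine ⟨hnew, Or.inr h1T, ?_⟩
      intro z hz
      rcases hz with hz | hz
      · rw [hz]
        obtain ⟨g, hg, e⟩ := hTsub hx
        rw [← e]
        exact ⟨s * g, L.mul_mem (hSL hsS) hg, rfl⟩
      · exact hTsub hz
    have := hmax hmem (Set.subset_insert _ _)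
    exact hcon (this (Set.mem_insert _ _))
  have hclosedL : ∀ g ∈ Subgroup.closure S, ∀ x ∈ T, g • x ∈ T := by
    intro g hg
    induction hg using Subgroup.closure_induction with
    | mem s hsS => exact fun x hx => hclosed x hx s hsS
    | one => intro x hx; rwa [one_smul]
    | mul a b _ _ ha hb =>
      intro x hx
      rw [mul_smul]
      exact ha _ (hb x hx)
    | inv a _ ha =>
      have hpow : ∀ n : ℕ, ∀ x ∈ T, a ^ n • x ∈ T := by
        intro n
        induction n with
        | zero => intro x hx; rwa [pow_zero, one_smul]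
        | succ n ih =>
          intro x hx
          rw [pow_succ', mul_smul]
          exact ha _ (ih x hx)
      intro x hx
      have e : a⁻¹ = a ^ (orderOf a - 1) := by
        rw [inv_eq_iff_mul_eq_one, ← pow_succ', Nat.sub_add_cancel (orderOf_pos a),
          pow_orderOf_eq_one]
      rw [e]
      exact hpow _ x hx
  have hTeq : ∀ g : G, (QuotientGroup.mk g : G ⧸ H) ∈ T ↔ g ∈ L := by
    intro g
    constructor
    · intro hg
      exact (hTL g).mp (hTsub hg)
    · intro hg
      obtain ⟨k, hk, hkg⟩ := hLS g hg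
      have := hclosedL k hk _ h1T
      have e : k • (QuotientGroup.mk 1 : G ⧸ H) = QuotientGroup.mk g := by
        show (QuotientGroup.mk (k • 1) : G ⧸ H) = _
        rw [smul_eq_mul, mul_one, QuotientGroup.eq]
        exact hkg
      rw [e] at this
      exact this
  obtain ⟨φ, ρ, ε, -, h1, h2, h3, -⟩ := hT
  have hφL : ∀ g : G, φ g ∈ L ↔ g ∈ L := by
    intro g
    rw [← hTeq, ← hTeq]
    constructor
    · intro h
      by_contra hcon
      have := h2 g hcon
      rw [this] at h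
      exact hcon h
    · intro h
      by_contra hcon
      have e := φ.injective (h2 _ hcon)
      rw [e] at hcon
      exact hcon h
  refine ⟨φ.subtypePerm hφL, ?_, ?_⟩
  · intro h
    exact h1 h.1 ((hTeq _).mpr h.2)
  · intro x y
    rw [Perm.sameCycle_subtypePerm]
    exact h3 _ _ ((hTeq _).mpr x.2) ((hTeq _).mpr y.2)

theorem hc_all {G : Type*} [Group G] [Finite G] (A : Set G) (hne : A.Nonempty)
    (hs : ∀ a ∈ A, a⁻¹ ∈ A) (hg : Subgroup.closure A = ⊤)
    (hc : ∀ g : G, ∀ a ∈ A, g * a * g⁻¹ ∈ A) : HC G A := by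
  classical
  by_cases htriv : ∀ a ∈ A, a = 1
  · have hbot : (⊤ : Subgroup G) = ⊥ := by
      rw [← hg, Subgroup.closure_eq_bot_iff]
      intro a ha
      exact htriv a ha
    have hone : ∀ g : G, g = 1 := by
      intro g
      have : g ∈ (⊤ : Subgroup G) := Subgroup.mem_top g
      rw [hbot] at this
      exact Subgroup.mem_bot.mp this
    obtain ⟨a, ha⟩ := hne
    have h1 : (1 : G) ∈ A := by rw [← hone a]; exact ha
    exact ⟨1, fun g => by simpa using h1, fun g h => by rw [hone g, hone h]⟩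
  push Not at htriv
  obtain ⟨a1, ha1, hne1⟩ := htriv
  have hstart : ∃ c : ℕ, (c = 0 → ∀ a ∈ A, a * a = 1) ∧
      ∃ a ∈ A, 2 + c ≤ Nat.card (Subgroup.zpowers a) := by
    by_cases hinv : ∀ a ∈ A, a * a = 1
    · refine ⟨0, fun _ => hinv, a1, ha1, ?_⟩
      rw [Nat.card_zpowers]
      have h1 := orderOf_pos a1
      have h2 : orderOf a1 ≠ 1 := fun h => hne1 (orderOf_eq_one_iff.mp h)
      omega
    · push Not at hinv
      obtain ⟨a, ha, haa⟩ := hinv
      refine ⟨1, fun h => absurd h one_ne_zero, a, ha, ?_⟩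
      rw [Nat.card_zpowers]
      have h1 := orderOf_pos a
      have h2 : orderOf a ≠ 1 := by
        intro h
        apply haa
        rw [orderOf_eq_one_iff.mp h, one_mul]
      have h3 : orderOf a ≠ 2 := by
        intro h
        apply haa
        rw [← pow_two, ← h, pow_orderOf_eq_one]
      omega
  obtain ⟨c, hcA, a0, ha0, hcard0⟩ := hstart
  let Q : Subgroup G → Prop := fun H => ∃ S : Set G, S ⊆ A ∧ Subgroup.closure S = H ∧ PH A H ∧
    Set.ncard S + 1 + c ≤ Nat.card H
  have hQ0 : Q (Subgroup.zpowers a0) := by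
    refine ⟨{a0}, Set.singleton_subset_iff.mpr ha0, ?_, ph_zpowers A a0 ha0, ?_⟩
    · rw [Subgroup.zpowers_eq_closure]
    · rw [Set.ncard_singleton]
      omega
  obtain ⟨H, hQH, hmax⟩ := (Set.toFinite {H : Subgroup G | Q H}).exists_maximal ⟨_, hQ0⟩
  obtain ⟨S, hSA, hSH, hPH, hcard⟩ := hQH
  by_cases htop : H = ⊤
  · subst htop
    exact hc_of_ph A hPH
  exfalso
  obtain ⟨a, haA, haH⟩ : ∃ a ∈ A, a ∉ H := by
    by_contra hcon
    push Not at hcon
    apply htop
    rw [eq_top_iff, ← hg, Subgroup.closure_le]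
    exact hcon
  have hS'A : insert a S ⊆ A := Set.insert_subset haA hSA
  have hHL : H ≤ Subgroup.closure (insert a S) := by
    rw [← hSH]
    exact Subgroup.closure_mono (Set.subset_insert _ _)
  have hncard : Set.ncard (insert a S) ≤ Set.ncard S + 1 := Set.ncard_insert_le a S
  have hstep := step A hs H hPH (insert a S) (fun g s hs => hc g s (hS'A hs)) _ hHL
    Subgroup.subset_closure (fun g hg => ⟨g, hg, by simp⟩) c
    (fun h s hs => hcA h s (hS'A hs)) (by omega)
  have haL : a ∈ Subgroup.closure (insert a S) := Subgroup.subset_closure (Set.mem_insert _ _)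
  have hcardL : 2 * Nat.card H ≤ Nat.card (Subgroup.closure (insert a S)) := by
    obtain ⟨k, hk⟩ := Subgroup.card_dvd_of_le hHL
    have hk0 : k ≠ 0 := by
      rintro rfl
      rw [mul_zero] at hk
      have := Nat.card_pos (α := Subgroup.closure (insert a S))
      omega
    have hk1 : k ≠ 1 := by
      rintro rfl
      rw [mul_one] at hk
      have e := Subgroup.eq_of_le_of_card_ge hHL (by omega)
      rw [e] at haH
      exact haH haL
    rw [hk]
    have : 2 ≤ k := by omega
    nlinarith [Nat.card_pos (α := H)]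
  have hHpos : 0 < Nat.card H := Nat.card_pos
  have hQL : Q (Subgroup.closure (insert a S)) :=
    ⟨insert a S, hS'A, rfl, hstep, by omega⟩
  exact haH (hmax hQL hHL haL)

end Pool.Agent.Q240.Cay
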