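import Pool.Agent.Q240.Cay.Merge

namespace Pool.Agent.Q240.Cay

open Equiv

variable {C : Type*}

/-- The layers, with alternating orientations. -/
def base (ψ : Perm C) (r : ℕ) : Perm (C × Fin r) where
  toFun p := (if Even p.2.val then ψ p.1 else ψ.symm p.1, p.2)
  invFun p := (if Even p.2.val then ψ.symm p.1 else ψ p.1, p.2)
  left_inv p := by
    obtain ⟨c, j⟩ := p
    by_cases h : Even j.val <;> simp [h]
  right_inv p := by
    obtain ⟨c, j⟩ := p
    by_cases h : Even j.val <;> simp [h]

/-- Steps on the cylinder. -/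
def Stp (ψ : Perm C) {r : ℕ} (p q : C × Fin r) : Prop :=
  (q.2 = p.2 ∧ (q.1 = ψ p.1 ∨ q.1 = ψ.symm p.1)) ∨
    (q.1 = p.1 ∧ (q.2.val = p.2.val + 1 ∨ p.2.val = q.2.val + 1))

lemma base_stp (ψ : Perm C) (r : ℕ) (p : C × Fin r) : Stp ψ p (base ψ r p) := by
  left
  by_cases h : Even p.2.val <;> simp [base, h]

lemma samecycle_nat {X : Type*} [Finite X] {φ : Perm X} {x y : X} (h : φ.SameCycle x y) :
    ∃ n : ℕ, (φ ^ n) x = y := by
  obtain ⟨n, -, e⟩ := h.exists_pow_eq'
  exact ⟨n, e⟩

lemma invariant {X : Type*} [Finite X] {φ : Perm X} (S : X → Prop) (hS : ∀ x, S x → S (φ x))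
    {x y : X} (hx : S x) (h : φ.SameCycle x y) : S y := by
  obtain ⟨n, rfl⟩ := samecycle_nat h
  clear h
  induction n with
  | zero => exact hx
  | succ n ih =>
    have e : (φ ^ (n + 1)) x = φ ((φ ^ n) x) := by rw [pow_succ']; rfl
    rw [e]
    exact hS _ ih

/-- If `φ` acts like the layer on a layer then the layer is in one cycle. -/
lemma layer_same [Finite C] (ψ : Perm C) (hψ : ∀ x y, ψ.SameCycle x y) {r : ℕ} (φ : Perm (C × Fin r))
    (j : Fin r) (hφ : ∀ c, φ (c, j) = base ψ r (c, j)) (c d : C) :
    φ.SameCycle (c, j) (d, j) := by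
  by_cases h : Even j.val
  · obtain ⟨n, rfl⟩ := samecycle_nat (hψ c d)
    have : ∀ n : ℕ, (φ ^ n) (c, j) = ((ψ ^ n) c, j) := by
      intro n
      induction n with
      | zero => rfl
      | succ n ih =>
        have e : (φ ^ (n + 1)) (c, j) = φ ((φ ^ n) (c, j)) := by rw [pow_succ']; rfl
        have e' : (ψ ^ (n + 1)) c = ψ ((ψ ^ n) c) := by rw [pow_succ']; rfl
        rw [e, ih, hφ, e']
        simp [base, h]
    exact ⟨(n : ℤ), by rw [zpow_natCast, this]⟩
  · obtain ⟨n, rfl⟩ := samecycle_nat (hψ d c)
    have : ∀ n : ℕ, (φ ^ n) ((ψ ^ n) d, j) = (d, j) := by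
      intro n
      induction n with
      | zero => rfl
      | succ n ih =>
        have e : (φ ^ (n + 1)) ((ψ ^ (n + 1)) d, j) = (φ ^ n) (φ ((ψ ^ (n + 1)) d, j)) := by
          rw [pow_succ]; rfl
        have e' : (ψ ^ (n + 1)) d = ψ ((ψ ^ n) d) := by rw [pow_succ']; rfl
        have e3 : φ (ψ ((ψ ^ n) d), j) = ((ψ ^ n) d, j) := by
          rw [hφ]; simp [base, h]
        rw [e, e', e3, ih]
    exact ⟨(n : ℤ), by rw [zpow_natCast, this]⟩

theorem cylinder [Finite C] (ψ : Perm C) (hψ : ∀ x y, ψ.SameCycle x y) (u : C) (hu : ψ u ≠ u)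
    (r : ℕ) : ∃ Φ : Perm (C × Fin r), (∀ p, Stp ψ p (Φ p)) ∧ ∀ p q, Φ.SameCycle p q := by
  classical
  have hu' : ψ.symm u ≠ u := by
    intro e
    apply hu
    conv_lhs => rw [← e]
    simp
  have main : ∀ k : ℕ, k < r → ∃ Φ : Perm (C × Fin r), (∀ p, Stp ψ p (Φ p)) ∧
      (∀ p, k < p.2.val → Φ p = base ψ r p) ∧
      (∀ p, p.2.val = k → p.1 = u → Φ p = base ψ r p) ∧
      (∀ p q, p.2.val ≤ k → q.2.val ≤ k → Φ.SameCycle p q) ∧
      (∀ p, p.2.val ≤ k → (Φ p).2.val ≤ k) := by
    intro k
    induction k with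
    | zero =>
      intro hr
      refine ⟨base ψ r, base_stp ψ r, fun _ _ => rfl, fun _ _ _ => rfl, ?_, ?_⟩
      · rintro ⟨c, j⟩ ⟨d, j'⟩ hj hj'
        have e1 : j = ⟨0, hr⟩ := Fin.ext (by simpa using hj)
        have e2 : j' = ⟨0, hr⟩ := Fin.ext (by simpa using hj')
        rw [e1, e2]
        exact layer_same ψ hψ _ _ (fun _ => rfl) c d
      · intro p hp
        exact hp
    | succ k ih =>
      intro hr
      obtain ⟨Φ, h1, h2, h3, h4, h5⟩ := ih (by omega)
      have hk : k < r := by omega
      set x : C × Fin r := (u, ⟨k, hk⟩) with hx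
      set v : C := (base ψ r x).1 with hv
      have hvu : v ≠ u := by
        rw [hv, hx]
        by_cases h : Even k
        · simp [base, h, hu]
        · simp [base, h, hu']
      set y : C × Fin r := (v, ⟨k + 1, hr⟩) with hy
      have hΦx : Φ x = (v, ⟨k, hk⟩) := by
        rw [h3 x rfl rfl, hv]
        rfl
      have hΦy : Φ y = (u, ⟨k + 1, hr⟩) := by
        rw [h2 y (by simp [hy]), hy, hv, hx]
        by_cases h : Even k
        · have h' : ¬ Even (k + 1) := by rw [Nat.even_add_one]; simpa using h
          simp [base, h, h']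
        · have h' : Even (k + 1) := by rw [Nat.even_add_one]; exact h
          simp [base, h, h']
      have hns : ¬ Φ.SameCycle x y := by
        intro hs
        have := invariant (fun p : C × Fin r => p.2.val ≤ k) (fun p hp => h5 p hp)
          (x := x) (y := y) (by simp [hx]) hs
        simp [hy] at this
      have hΨx : (Φ * swap x y) x = (u, ⟨k + 1, hr⟩) := by
        rw [Perm.mul_apply, swap_apply_left, hΦy]
      have hΨy : (Φ * swap x y) y = (v, ⟨k, hk⟩) := by
        rw [Perm.mul_apply, swap_apply_right, hΦx]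
      have hΨ : ∀ p, p ≠ x → p ≠ y → (Φ * swap x y) p = Φ p := by
        intro p hpx hpy
        rw [Perm.mul_apply, swap_apply_of_ne_of_ne hpx hpy]
      refine ⟨Φ * swap x y, ?_, ?_, ?_, ?_, ?_⟩
      · intro p
        by_cases hpx : p = x
        · subst hpx
          rw [hΨx]
          right
          exact ⟨rfl, Or.inl rfl⟩
        · by_cases hpy : p = y
          · rw [hpy, hΨy]
            right
            exact ⟨rfl, Or.inr rfl⟩
          · rw [hΨ p hpx hpy]
            exact h1 p
      · intro p hp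
        have hpx : p ≠ x := by
          rintro rfl
          simp [hx] at hp
        have hpy : p ≠ y := by
          rintro rfl
          simp [hy] at hp
        rw [hΨ p hpx hpy, h2 p (by omega)]
      · intro p hp hpu
        have hpx : p ≠ x := by
          intro e
          rw [e, hx] at hp
          simp at hp
        have hpy : p ≠ y := by
          intro e
          rw [e, hy] at hpu
          exact hvu hpu
        rw [hΨ p hpx hpy, h2 p (by omega)]
      · have hlay : ∀ c d : C, (Φ * swap x y).SameCycle (c, ⟨k + 1, hr⟩) (d, ⟨k + 1, hr⟩) := by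
          intro c d
          apply merge Φ hns
          exact layer_same ψ hψ Φ _ (fun c => h2 _ (by simp)) c d
        have hxall : ∀ p : C × Fin r, p.2.val ≤ k + 1 → (Φ * swap x y).SameCycle x p := by
          intro p hp
          by_cases hpk : p.2.val ≤ k
          · exact merge Φ hns (h4 x p (by simp [hx]) hpk)
          · have e : p = (p.1, ⟨k + 1, hr⟩) := by
              ext
              · rfl
              · simp; omega
            rw [e]
            exact (merge_aux Φ hns).trans (hlay v p.1)
        intro p q hp hq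
        exact (hxall p hp).symm.trans (hxall q hq)
      · intro p hp
        by_cases hpx : p = x
        · rw [hpx, hΨx]
        · by_cases hpy : p = y
          · rw [hpy, hΨy]
            simp
          · rw [hΨ p hpx hpy]
            by_cases hpk : p.2.val ≤ k
            · have := h5 p hpk
              omega
            · rw [h2 p (by omega)]
              exact hp
  rcases Nat.eq_zero_or_pos r with hr | hr
  · subst hr
    exact ⟨1, fun p => p.2.elim0, fun p => p.2.elim0⟩
  · obtain ⟨Φ, h1, -, -, h4, -⟩ := main (r - 1) (by omega)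
    exact ⟨Φ, h1, fun p q => h4 p q (by omega) (by omega)⟩

end Pool.Agent.Q240.Cay
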