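import Mathlib

namespace Pool.Agent.Q240.Cay

open Equiv

/-- Merging: if `x` and `y` lie in different cycles of `φ`, then after `φ * swap x y` everything
that was in one cycle stays in one cycle, and `x`, `y` are in one cycle. -/
lemma merge_aux {X : Type*} [DecidableEq X] [Finite X] (φ : Perm X) {x y : X}
    (h : ¬ φ.SameCycle x y) : (φ * swap x y).SameCycle x y := by
  -- the new permutation sends `x` to `φ y` and runs through the cycle of `y`
  set ψ := φ * swap x y with hψ
  have hxy : x ≠ y := fun e => h (e ▸ Perm.SameCycle.refl _ _)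
  have h1 : ψ x = φ y := by simp [hψ]
  obtain ⟨n, hn0, hn⟩ : ∃ n : ℕ, 0 < n ∧ (φ ^ n) y = y := by
    refine ⟨orderOf φ, orderOf_pos φ, ?_⟩
    simp [pow_orderOf_eq_one]
  -- minimal such n
  classical
  let P : ℕ → Prop := fun n => 0 < n ∧ (φ ^ n) y = y
  have hP : ∃ n, P n := ⟨n, hn0, hn⟩
  let m := Nat.find hP
  have hm : P m := Nat.find_spec hP
  have hmin : ∀ k, k < m → ¬ P k := fun k hk => Nat.find_min hP hk
  have key : ∀ k, k < m → (ψ ^ k) (φ y) = (φ ^ (k + 1)) y := by
    intro k
    induction k with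
    | zero => intro _; simp
    | succ k ih =>
      intro hk
      have hk' : k < m := by omega
      have e4 : (ψ ^ (k + 1)) (φ y) = ψ ((ψ ^ k) (φ y)) := by rw [pow_succ']; rfl
      have e5 : (φ ^ (k + 1 + 1)) y = φ ((φ ^ (k + 1)) y) := by rw [pow_succ']; rfl
      rw [e4, ih hk', e5]
      set t := (φ ^ (k + 1)) y with ht
      have hne1 : t ≠ x := by
        intro e
        apply h
        exact Perm.SameCycle.symm ⟨((k + 1 : ℕ) : ℤ), by rw [zpow_natCast]; exact e⟩
      have hne2 : t ≠ y := by
        intro e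
        exact hmin (k + 1) hk ⟨by omega, e⟩
      have e3 : ψ t = φ (swap x y t) := by rw [hψ]; rfl
      rw [e3, swap_apply_of_ne_of_ne hne1 hne2]
  have hm0 : 0 < m := hm.1
  have h2 := key (m - 1) (by omega)
  rw [Nat.sub_add_cancel hm0, hm.2] at h2
  refine ⟨(m : ℕ), ?_⟩
  have : (ψ ^ m) x = y := by
    have e : m = (m - 1) + 1 := by omega
    rw [e, pow_succ, Perm.mul_apply, h1, h2]
  simpa using this

lemma merge_step {X : Type*} [DecidableEq X] [Finite X] (φ : Perm X) {x y : X}
    (h : ¬ φ.SameCycle x y) (z : X) : (φ * swap x y).SameCycle z (φ z) := by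
  have hxy := merge_aux φ h
  set ψ := φ * swap x y with hψ
  by_cases hx : z = x
  · subst hx
    have h1 : ψ y = φ z := by simp [hψ]
    refine hxy.trans ?_
    rw [← h1]
    exact ⟨1, by simp⟩
  · by_cases hy : z = y
    · subst hy
      have h1 : ψ x = φ z := by simp [hψ]
      refine hxy.symm.trans ?_
      rw [← h1]
      exact ⟨1, by simp⟩
    · have h1 : ψ z = φ z := by rw [hψ, Perm.mul_apply, swap_apply_of_ne_of_ne hx hy]
      rw [← h1]
      exact ⟨1, by simp⟩

lemma merge {X : Type*} [DecidableEq X] [Finite X] (φ : Perm X) {x y : X}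
    (h : ¬ φ.SameCycle x y) {z w : X} (hzw : φ.SameCycle z w) :
    (φ * swap x y).SameCycle z w := by
  obtain ⟨n, -, rfl⟩ := hzw.exists_pow_eq'
  clear hzw
  induction n with
  | zero => exact Perm.SameCycle.refl _ _
  | succ n ih =>
    rw [pow_succ', Perm.mul_apply]
    exact ih.trans (merge_step φ h _)

end Pool.Agent.Q240.Cay
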