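import Pool.Agent.Q240.Cay.TreeN

namespace Pool.Agent.Q240.Cay

open Equiv

/-- A small generating subset. -/
lemma small_gen {G : Type*} [Group G] [Finite G] (A0 : Set G) (K : Subgroup G)
    (hK : Subgroup.closure A0 = K) :
    ∃ S ⊆ A0, Subgroup.closure S = K ∧ 2 ^ Set.ncard S ≤ Nat.card K := by
  classical
  let Q : Subgroup G → Prop := fun H => ∃ S : Set G, S ⊆ A0 ∧ Subgroup.closure S = H ∧
    2 ^ Set.ncard S ≤ Nat.card H
  have hQ0 : Q ⊥ := ⟨∅, Set.empty_subset _, Subgroup.closure_empty, by simp⟩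
  obtain ⟨H, hQH, hmax⟩ := (Set.toFinite {H : Subgroup G | Q H}).exists_maximal ⟨_, hQ0⟩
  obtain ⟨S, hSA, hSH, hcard⟩ := hQH
  have hHK : H ≤ K := by
    rw [← hSH, ← hK]
    exact Subgroup.closure_mono hSA
  by_cases htop : H = K
  · exact ⟨S, hSA, by rw [hSH, htop], by rw [← htop]; exact hcard⟩
  exfalso
  obtain ⟨a, haA, haH⟩ : ∃ a ∈ A0, a ∉ H := by
    by_contra hcon
    push Not at hcon
    apply htop
    apply le_antisymm hHK
    rw [← hK, Subgroup.closure_le]
    exact hcon
  have hHL : H ≤ Subgroup.closure (insert a S) := by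
    rw [← hSH]
    exact Subgroup.closure_mono (Set.subset_insert _ _)
  have hncard : Set.ncard (insert a S) ≤ Set.ncard S + 1 := Set.ncard_insert_le a S
  have haL : a ∈ Subgroup.closure (insert a S) := Subgroup.subset_closure (Set.mem_insert _ _)
  have hcardL : 2 * Nat.card H ≤ Nat.card (Subgroup.closure (insert a S)) := by
    obtain ⟨k, hk⟩ := Subgroup.card_dvd_of_le hHL
    have hk0 : k ≠ 0 := by
      rintro rfl
      rw [mul_zero] at hk
      have := Nat.card_pos (α := Subgroup.closure (insert a S))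
      omega
    have hk1 : k ≠ 1 := by
      rintro rfl
      rw [mul_one] at hk
      have e := Subgroup.eq_of_le_of_card_ge hHL (by omega)
      rw [e] at haH
      exact haH haL
    rw [hk]
    have : 2 ≤ k := by omega
    nlinarith [Nat.card_pos (α := H)]
  have hQL : Q (Subgroup.closure (insert a S)) := by
    refine ⟨insert a S, Set.insert_subset haA hSA, rfl, ?_⟩
    calc 2 ^ Set.ncard (insert a S) ≤ 2 ^ (Set.ncard S + 1) :=
          Nat.pow_le_pow_right (by norm_num) hncard
      _ = 2 * 2 ^ Set.ncard S := by rw [pow_succ]; ring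
      _ ≤ 2 * Nat.card H := by omega
      _ ≤ _ := hcardL
  exact haH (hmax hQL hHL haL)

lemma closure_normal_of_conj {G : Type*} [Group G] (B : Set G)
    (hB : ∀ g : G, ∀ b ∈ B, g * b * g⁻¹ ∈ B) : (Subgroup.closure B).Normal := by
  refine ⟨fun n hn g => ?_⟩
  induction hn using Subgroup.closure_induction with
  | mem x hx => exact Subgroup.subset_closure (hB g x hx)
  | one => simp
  | mul a b _ _ ha hb =>
    have e : g * (a * b) * g⁻¹ = (g * a * g⁻¹) * (g * b * g⁻¹) := by group
    rw [e]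
    exact Subgroup.mul_mem _ ha hb
  | inv a _ ha =>
    have e : g * a⁻¹ * g⁻¹ = (g * a * g⁻¹)⁻¹ := by group
    rw [e]
    exact Subgroup.inv_mem _ ha

/-- The normal part is large: merging its cosets by right multiplications. -/
theorem step_normal {G : Type*} [Group G] [Finite G] (A : Set G) (hs : ∀ a ∈ A, a⁻¹ ∈ A)
    (N : Subgroup G) [hN : N.Normal] (ψ : Perm N)
    (hψA : ∀ (h : N) (g : G), g * ((h : G)⁻¹ * (ψ h : G)) * g⁻¹ ∈ A)
    (hψ : ∀ x y, ψ.SameCycle x y) (S : Set G) (hSA : S ⊆ A)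
    (hgen : N ⊔ Subgroup.closure S = ⊤)
    (hcard : Set.ncard S < Nat.card N) : HC G A := by
  classical
  obtain ⟨T, ⟨hT, h1T⟩, hmax⟩ := (Set.toFinite {T : Set (G ⧸ N) | StN A N ψ S T ∧
      (QuotientGroup.mk 1 : G ⧸ N) ∈ T}).exists_maximal
    ⟨{(QuotientGroup.mk 1 : G ⧸ N)}, stN_single A N ψ hψA hψ S, rfl⟩
  have hclosed : ∀ x ∈ T, ∀ s ∈ S, x * (QuotientGroup.mk s : G ⧸ N) ∈ T := by
    intro x hx s hsS
    by_contra hcon
    have hnew := stN_add A hs N ψ hψA hψ S hSA hcard T hT x hx s hsS hcon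
    have hmem : insert (x * (QuotientGroup.mk s : G ⧸ N)) T ∈ {T : Set (G ⧸ N) | StN A N ψ S T ∧
        (QuotientGroup.mk 1 : G ⧸ N) ∈ T} := ⟨hnew, Or.inr h1T⟩
    have := hmax hmem (Set.subset_insert _ _)
    exact hcon (this (Set.mem_insert _ _))
  have hcl : ∀ q ∈ Subgroup.closure ((QuotientGroup.mk : G → G ⧸ N) '' S), ∀ x ∈ T, x * q ∈ T := by
    intro q hq
    induction hq using Subgroup.closure_induction with
    | mem s hsS =>
      obtain ⟨s, hs, rfl⟩ := hsS
      exact fun x hx => hclosed x hx s hs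
    | one => intro x hx; rwa [mul_one]
    | mul a b _ _ ha hb =>
      intro x hx
      rw [← mul_assoc]
      exact hb _ (ha x hx)
    | inv a _ ha =>
      have hpow : ∀ n : ℕ, ∀ x ∈ T, x * a ^ n ∈ T := by
        intro n
        induction n with
        | zero => intro x hx; rwa [pow_zero, mul_one]
        | succ n ih =>
          intro x hx
          rw [pow_succ, ← mul_assoc]
          exact ha _ (ih x hx)
      intro x hx
      have e : a⁻¹ = a ^ (orderOf a - 1) := by
        rw [inv_eq_iff_mul_eq_one, ← pow_succ', Nat.sub_add_cancel (orderOf_pos a),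
          pow_orderOf_eq_one]
      rw [e]
      exact hpow _ x hx
  have htop : Subgroup.closure ((QuotientGroup.mk : G → G ⧸ N) '' S) = ⊤ := by
    have h1 : (N ⊔ Subgroup.closure S).map (QuotientGroup.mk' N) = ⊤ := by
      rw [hgen, ← MonoidHom.range_eq_map, MonoidHom.range_eq_top]
      exact QuotientGroup.mk'_surjective N
    rw [Subgroup.map_sup, QuotientGroup.map_mk'_self, bot_sup_eq, MonoidHom.map_closure] at h1
    exact h1
  have hall : ∀ q : G ⧸ N, q ∈ T := by
    intro q
    have := hcl q (by rw [htop]; exact Subgroup.mem_top q) _ h1T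
    have e : (QuotientGroup.mk 1 : G ⧸ N) * q = q := one_mul q
    rwa [e] at this
  obtain ⟨φ, ρ, ε, -, h1, -, h3, -⟩ := hT
  exact ⟨φ, fun g => h1 g (hall _), fun g g' => h3 g g' (hall _) (hall _)⟩

/-- `A` contains a conjugation closed set `B`, and fewer than `|⟨B⟩|` further elements of `A`
are needed to generate the group. -/
theorem hc_large {G : Type*} [Group G] [Finite G] (A B S : Set G) (hs : ∀ a ∈ A, a⁻¹ ∈ A)
    (hBA : B ⊆ A) (hBne : B.Nonempty) (hB : ∀ g : G, ∀ b ∈ B, g * b * g⁻¹ ∈ B) (hSA : S ⊆ A)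
    (hgen : Subgroup.closure (B ∪ S) = ⊤)
    (hcard : Set.ncard S < Nat.card (Subgroup.closure B)) : HC G A := by
  classical
  have hNn := closure_normal_of_conj B hB
  set N := Subgroup.closure B with hN
  let B' : Set G := {g | g ∈ B ∨ g⁻¹ ∈ B}
  have hB'A : B' ⊆ A := by
    rintro g (hg | hg)
    · exact hBA hg
    · have := hs _ (hBA hg)
      rwa [inv_inv] at this
  have hB'c : ∀ g : G, ∀ b ∈ B', g * b * g⁻¹ ∈ B' := by
    rintro g b (hb | hb)
    · exact Or.inl (hB g b hb)
    · refine Or.inr ?_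
      have := hB g _ hb
      have e : (g * b * g⁻¹)⁻¹ = g * b⁻¹ * g⁻¹ := by group
      rw [e]
      exact this
  have hHC : HC N ((fun n : N => (n : G)) ⁻¹' B') := by
    apply hc_all
    · obtain ⟨b, hb⟩ := hBne
      exact ⟨⟨b, Subgroup.subset_closure hb⟩, Or.inl hb⟩
    · rintro n hn
      rcases hn with hn | hn
      · right
        show ((n⁻¹ : N) : G)⁻¹ ∈ B
        simpa using hn
      · left
        show ((n⁻¹ : N) : G) ∈ B
        simpa using hn
    · rw [eq_top_iff, ← Subgroup.closure_closure_coe_preimage (k := B)]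
      apply Subgroup.closure_mono
      intro n hn
      exact Or.inl hn
    · intro g a ha
      exact hB'c (g : G) _ ha
  obtain ⟨ψ, hψ1, hψ2⟩ := hHC
  refine step_normal A hs N ψ (fun h g => hB'A (hB'c g _ (hψ1 h))) hψ2 S hSA ?_ hcard
  rw [← hgen, Subgroup.closure_union]

lemma ph_gen {G : Type*} [Group G] [Finite G] (A : Set G) (H : Subgroup G) (h : PH A H) :
    Subgroup.closure (A ∩ H) = H := by
  obtain ⟨φ, h1, h2⟩ := h
  apply le_antisymm
  · rw [Subgroup.closure_le]
    exact Set.inter_subset_right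
  · intro x hx
    have := invariant (φ := φ) (fun z : H => (z : G) ∈ Subgroup.closure (A ∩ H)) ?_
      (x := 1) (y := ⟨x, hx⟩) (Subgroup.one_mem _) (h2 _ _)
    · exact this
    · intro z hz
      have hl : (z : G)⁻¹ * (φ z : G) ∈ Subgroup.closure (A ∩ H) :=
        Subgroup.subset_closure ⟨h1 z, H.mul_mem (H.inv_mem z.2) (φ z).2⟩
      have := Subgroup.mul_mem _ hz hl
      rwa [mul_inv_cancel_left] at this

/-- Adding conjugacy classes to a generating set of a subgroup. -/
theorem hc_add {G : Type*} [Group G] [Finite G] (A B : Set G) (hs : ∀ a ∈ A, a⁻¹ ∈ A)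
    (hBA : B ⊆ A) (hB : ∀ g : G, ∀ b ∈ B, g * b * g⁻¹ ∈ B) (H : Subgroup G) (hPH : PH A H)
    (hgen : H ⊔ Subgroup.closure B = ⊤) : HC G A := by
  classical
  have hNn := closure_normal_of_conj B hB
  by_cases hle : Nat.card H ≤ Nat.card (Subgroup.closure B)
  · by_cases hBne : B.Nonempty
    · obtain ⟨S, hS, hSH, hcard⟩ := small_gen (A ∩ H) H (ph_gen A H hPH)
      refine hc_large A B S hs hBA hBne hB (fun s hs => (hS hs).1) ?_ ?_
      · rw [Subgroup.closure_union, hSH, sup_comm]
        exact hgen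
      · exact (Nat.lt_two_pow_self).trans_le (hcard.trans hle)
    · rw [Set.not_nonempty_iff_eq_empty] at hBne
      rw [hBne, Subgroup.closure_empty, sup_bot_eq] at hgen
      rw [hgen] at hPH
      exact hc_of_ph A hPH
  · push Not at hle
    obtain ⟨S, hS, hSN, hcard⟩ := small_gen B (Subgroup.closure B) rfl
    have h2 : Set.ncard S + 1 ≤ 2 ^ Set.ncard S := Nat.lt_two_pow_self
    apply hc_of_ph
    refine step A hs H hPH S (fun g a ha => hBA (hB g a (hS ha))) ⊤ le_top (fun s _ => Subgroup.mem_top s)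
      ?_ 1 (fun h => absurd h one_ne_zero) (by omega)
    intro g _
    have hg : g ∈ (Subgroup.closure B ⊔ H : Subgroup G) := by
      rw [sup_comm, hgen]
      exact Subgroup.mem_top g
    have hg' : g ∈ ((Subgroup.closure B ⊔ H : Subgroup G) : Set G) := hg
    rw [Subgroup.normal_mul] at hg'
    obtain ⟨k, hk, h, hh, rfl⟩ := hg'
    refine ⟨k, by rw [hSN]; exact hk, ?_⟩
    simpa using hh

end Pool.Agent.Q240.Cay
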