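import Pool.Agent.Q240.Cay.Abel

namespace Pool.Agent.Q240.Cay

open Equiv

section
variable {G : Type*} [Group G] (H : Subgroup G)

/-- The coset `r H`, parametrised by `H`. -/
def cosEquiv (r : G) : H ≃ {g : G // (QuotientGroup.mk g : G ⧸ H) = QuotientGroup.mk r} where
  toFun h := ⟨r * h, by rw [QuotientGroup.eq]; simp⟩
  invFun g := ⟨r⁻¹ * g.1, QuotientGroup.eq.mp g.2.symm⟩
  left_inv h := by ext; simp
  right_inv g := by ext; simp

open Classical in
/-- A permutation of `H` moved to the coset `r H` and extended by the identity. -/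
noncomputable def cos (r : G) (θ : Perm H) : Perm G := θ.extendDomain (cosEquiv H r)

lemma cos_apply (r : G) (θ : Perm H) (h : H) : cos H r θ (r * h) = r * (θ h : G) := by
  classical
  exact θ.extendDomain_apply_image (cosEquiv H r) h

lemma cos_out (r : G) (θ : Perm H) (g : G)
    (hg : (QuotientGroup.mk g : G ⧸ H) ≠ QuotientGroup.mk r) : cos H r θ g = g := by
  classical
  exact θ.extendDomain_apply_not_subtype (cosEquiv H r) hg

/-- Orientation. -/
def ori (ψ : Perm H) (b : Bool) : Perm H := if b then ψ else ψ.symm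

lemma ori_not (ψ : Perm H) (b : Bool) (h : H) : ori H ψ (!b) (ori H ψ b h) = h := by
  cases b <;> simp [ori]

end

lemma same_of_eqOn {X : Type*} [Finite X] {φ θ : Perm X} (S : X → Prop)
    (hS : ∀ x, S x → S (φ x)) (he : ∀ x, S x → θ x = φ x) {x y : X} (hx : S x)
    (h : φ.SameCycle x y) : θ.SameCycle x y := by
  obtain ⟨n, rfl⟩ := samecycle_nat h
  have : ∀ n : ℕ, (θ ^ n) x = (φ ^ n) x ∧ S ((φ ^ n) x) := by
    intro n
    induction n with
    | zero => exact ⟨rfl, hx⟩
    | succ n ih =>
      have e1 : (θ ^ (n + 1)) x = θ ((θ ^ n) x) := by rw [pow_succ']; rfl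
      have e2 : (φ ^ (n + 1)) x = φ ((φ ^ n) x) := by rw [pow_succ']; rfl
      rw [e1, e2, ih.1, he _ ih.2]
      exact ⟨rfl, hS _ ih.2⟩
  exact ⟨(n : ℤ), by rw [zpow_natCast, (this n).1]⟩

lemma ori_trans {G : Type*} [Group G] [Finite G] (H : Subgroup G) (ψ : Perm H)
    (hψ : ∀ x y, ψ.SameCycle x y) (b : Bool) (x y : H) : (ori H ψ b).SameCycle x y := by
  cases b
  · have : ψ⁻¹.SameCycle x y := (hψ x y).inv
    exact this
  · exact hψ x y

lemma cos_same {G : Type*} [Group G] [Finite G] (H : Subgroup G) (r : G) (θ : Perm H)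
    (hθ : ∀ x y, θ.SameCycle x y) (h k : H) : (cos H r θ).SameCycle (r * h) (r * k) := by
  obtain ⟨n, rfl⟩ := samecycle_nat (hθ h k)
  have : ∀ n : ℕ, ((cos H r θ) ^ n) (r * h) = r * ((θ ^ n) h : H) := by
    intro n
    induction n with
    | zero => rfl
    | succ n ih =>
      have e1 : ((cos H r θ) ^ (n + 1)) (r * h) = cos H r θ (((cos H r θ) ^ n) (r * h)) := by
        rw [pow_succ']; rfl
      have e2 : (θ ^ (n + 1)) h = θ ((θ ^ n) h) := by rw [pow_succ']; rfl
      rw [e1, e2, ih, cos_apply]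
  exact ⟨(n : ℤ), by rw [zpow_natCast, this n]⟩

/-- The state of the construction: the cosets in `T` are merged into one cycle, and at the coset
`x` only few edges of the original cycle have been destroyed. -/
def St {G : Type*} [Group G] (A : Set G) (H : Subgroup G) (ψ : Perm H) (S : Set G) (c : ℕ)
    (T : Set (G ⧸ H)) : Prop :=
  ∃ (φ : Perm G) (ρ : G ⧸ H → G) (ε : G ⧸ H → Bool),
    (∀ x ∈ T, (QuotientGroup.mk (ρ x) : G ⧸ H) = x) ∧
    (∀ g : G, (QuotientGroup.mk g : G ⧸ H) ∈ T → g⁻¹ * φ g ∈ A) ∧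
    (∀ g : G, (QuotientGroup.mk g : G ⧸ H) ∉ T → φ g = g) ∧
    (∀ g g' : G, (QuotientGroup.mk g : G ⧸ H) ∈ T → (QuotientGroup.mk g' : G ⧸ H) ∈ T →
      φ.SameCycle g g') ∧
    (∀ x ∈ T, Set.ncard {h : H | φ (ρ x * h) ≠ ρ x * (ori H ψ (ε x) h : H)} ≤
      Set.ncard {s : G | s ∈ S ∧ s • x ∈ T} + c)

lemma st_single {G : Type*} [Group G] [Finite G] (A : Set G) (H : Subgroup G) (ψ : Perm H)
    (hψA : ∀ h : H, ((h : G)⁻¹ * (ψ h : G)) ∈ A) (hψ : ∀ x y, ψ.SameCycle x y) (S : Set G)
    (c : ℕ) : St A H ψ S c {(QuotientGroup.mk 1 : G ⧸ H)} := by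
  refine ⟨cos H 1 ψ, fun _ => 1, fun _ => true, ?_, ?_, ?_, ?_, ?_⟩
  · intro x hx
    exact hx.symm
  · intro g hg
    have hg' : g ∈ H := by
      have := QuotientGroup.eq.mp (Set.mem_singleton_iff.mp hg).symm
      simpa using this
    have e := cos_apply H 1 ψ ⟨g, hg'⟩
    simp only [one_mul] at e
    rw [e]
    exact hψA ⟨g, hg'⟩
  · intro g hg
    exact cos_out H 1 ψ g hg
  · intro g g' hg hg'
    have h1 : g ∈ H := by
      have := QuotientGroup.eq.mp (Set.mem_singleton_iff.mp hg).symm
      simpa using this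
    have h2 : g' ∈ H := by
      have := QuotientGroup.eq.mp (Set.mem_singleton_iff.mp hg').symm
      simpa using this
    have := cos_same H 1 ψ hψ ⟨g, h1⟩ ⟨g', h2⟩
    simpa using this
  · intro x _
    have : {h : H | cos H 1 ψ (1 * (h : G)) ≠ 1 * (ori H ψ true h : H)} = ∅ := by
      ext h
      simp only [Set.mem_ofPred_eq, Set.mem_empty_iff_false, iff_false, not_not]
      rw [cos_apply]
      rfl
    rw [this, Set.ncard_empty]
    exact Nat.zero_le _

lemma st_add {G : Type*} [Group G] [Finite G] (A : Set G) (hs : ∀ a ∈ A, a⁻¹ ∈ A)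
    (H : Subgroup G) (ψ : Perm H)
    (hψA : ∀ h : H, ((h : G)⁻¹ * (ψ h : G)) ∈ A) (hψ : ∀ x y, ψ.SameCycle x y) (S : Set G)
    (hc : ∀ g : G, ∀ a ∈ S, g * a * g⁻¹ ∈ A) (c : ℕ) (hcS : c = 0 → ∀ s ∈ S, s * s = 1)
    (hcard : Set.ncard S + c ≤ Nat.card H) (T : Set (G ⧸ H)) (hT : St A H ψ S c T)
    (x : G ⧸ H) (hx : x ∈ T) (b : G) (hb : b ∈ S) (hbx : b • x ∉ T) :
    St A H ψ S c (insert (b • x) T) := by
  classical
  obtain ⟨φ, ρ, ε, h0, h1, h2, h3, h4⟩ := hT
  have hφT : ∀ g : G, (QuotientGroup.mk g : G ⧸ H) ∈ T → (QuotientGroup.mk (φ g) : G ⧸ H) ∈ T := by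
    intro g hg
    by_contra hcon
    have := h2 _ hcon
    have e := φ.injective this
    rw [e] at hcon
    exact hcon hg
  -- a free edge at `x`
  have hfree : ∃ k0 : H, φ (ρ x * k0) = ρ x * (ori H ψ (ε x) k0 : H) := by
    by_contra hcon
    push Not at hcon
    have e1 : {h : H | φ (ρ x * h) ≠ ρ x * (ori H ψ (ε x) h : H)} = Set.univ := by
      ext h
      simp [hcon h]
    have e2 := h4 x hx
    rw [e1, Set.ncard_univ] at e2
    have e3 : Set.ncard {s : G | s ∈ S ∧ s • x ∈ T} < Set.ncard S := by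
      apply Set.ncard_lt_ncard _ (Set.toFinite _)
      refine ⟨fun s hs => hs.1, fun hsub => hbx (hsub hb).2⟩
    omega
  obtain ⟨k0, hk0⟩ := hfree
  set k1 : H := ori H ψ (ε x) k0 with hk1
  set r : G := b * ρ x with hr
  set y : G ⧸ H := b • x with hy
  have hry : (QuotientGroup.mk r : G ⧸ H) = y := by
    rw [hr, hy]
    conv_rhs => rw [← h0 x hx]
    rfl
  set κ := cos H r (ori H ψ (!(ε x))) with hκ
  have hκout : ∀ g : G, (QuotientGroup.mk g : G ⧸ H) ≠ y → κ g = g := by
    intro g hg
    exact cos_out H r _ g (by rw [hry]; exact hg)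
  have hκin : ∀ h : H, κ (r * h) = r * (ori H ψ (!(ε x)) h : H) := cos_apply H r _
  have hyrep : ∀ g : G, (QuotientGroup.mk g : G ⧸ H) = y → ∃ h : H, g = r * h := by
    intro g hg
    rw [← hry] at hg
    exact ⟨⟨r⁻¹ * g, QuotientGroup.eq.mp hg.symm⟩, by simp⟩
  have hmkr : ∀ h : H, (QuotientGroup.mk (r * h) : G ⧸ H) = y := by
    intro h
    rw [← hry, QuotientGroup.eq]
    simp
  set φ1 : Perm G := φ * κ with hφ1
  have hφ1T : ∀ g : G, (QuotientGroup.mk g : G ⧸ H) ∈ T → φ1 g = φ g := by
    intro g hg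
    have : κ g = g := hκout g (fun e => hbx (e ▸ hg))
    rw [hφ1, Perm.mul_apply, this]
  have hφ1y : ∀ h : H, φ1 (r * h) = r * (ori H ψ (!(ε x)) h : H) := by
    intro h
    rw [hφ1, Perm.mul_apply, hκin]
    exact h2 _ (by rw [hmkr]; exact hbx)
  have hφ1out : ∀ g : G, (QuotientGroup.mk g : G ⧸ H) ∉ T → (QuotientGroup.mk g : G ⧸ H) ≠ y →
      φ1 g = g := by
    intro g hg hg'
    rw [hφ1, Perm.mul_apply, hκout g hg', h2 g hg]
  set P : G := ρ x * k0 with hP
  set Q : G := r * k1 with hQ
  have hPT : (QuotientGroup.mk P : G ⧸ H) ∈ T := by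
    have : (QuotientGroup.mk P : G ⧸ H) = x := by
      rw [← h0 x hx, QuotientGroup.eq]
      simp [hP]
    rw [this]
    exact hx
  have hQy : (QuotientGroup.mk Q : G ⧸ H) = y := hmkr k1
  have hPQ : P ≠ Q := by
    intro e
    rw [e, hQy] at hPT
    exact hbx hPT
  have hφ1P : φ1 P = ρ x * k1 := by rw [hφ1T P hPT, hP, hk0]
  have hφ1Q : φ1 Q = b * P := by
    rw [hQ, hφ1y, hk1, ori_not, hr, hP, mul_assoc]
  have hns : ¬ φ1.SameCycle P Q := by
    intro hs
    have := invariant (φ := φ1) (fun g : G => (QuotientGroup.mk g : G ⧸ H) ∈ T)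
      (fun g hg => by rw [hφ1T g hg]; exact hφT g hg) hPT hs
    rw [hQy] at this
    exact hbx this
  set θ : Perm G := φ1 * swap P Q with hθ
  have hθP : θ P = b * P := by rw [hθ, Perm.mul_apply, swap_apply_left, hφ1Q]
  have hθQ : θ Q = ρ x * k1 := by rw [hθ, Perm.mul_apply, swap_apply_right, hφ1P]
  have hθo : ∀ g, g ≠ P → g ≠ Q → θ g = φ1 g := by
    intro g hgP hgQ
    rw [hθ, Perm.mul_apply, swap_apply_of_ne_of_ne hgP hgQ]
  have hoA : ∀ (e : Bool) (h : H), ((h : G)⁻¹ * (ori H ψ e h : G)) ∈ A := by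
    intro e h
    cases e
    · have := hs _ (hψA (ψ.symm h))
      rw [Equiv.apply_symm_apply] at this
      simpa [ori] using this
    · exact hψA h
  refine ⟨θ, Function.update ρ y r, Function.update ε y (!(ε x)), ?_, ?_, ?_, ?_, ?_⟩
  · intro z hz
    by_cases hzy : z = y
    · rw [hzy, Function.update_self]
      exact hry
    · rw [Function.update_of_ne hzy]
      exact h0 z (hz.resolve_left hzy)
  · intro g hg
    by_cases hgP : g = P
    · rw [hgP, hθP]
      have := hc P⁻¹ b hb
      simpa [mul_assoc] using this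
    · by_cases hgQ : g = Q
      · rw [hgQ, hθQ]
        have e : ρ x * k1 = b⁻¹ * Q := by rw [hQ, hr]; group
        rw [e]
        have := hs _ (hc Q⁻¹ b hb)
        simpa [mul_assoc] using this
      · rw [hθo g hgP hgQ]
        rcases hg with hg | hg
        · obtain ⟨h, rfl⟩ := hyrep g hg
          rw [hφ1y]
          have e : (r * (h : G))⁻¹ * (r * (ori H ψ (!(ε x)) h : H)) =
              (h : G)⁻¹ * (ori H ψ (!(ε x)) h : H) := by group
          rw [e]
          exact hoA _ h
        · rw [hφ1T g hg]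
          exact h1 g hg
  · intro g hg
    have hg1 : (QuotientGroup.mk g : G ⧸ H) ≠ y := fun e => hg (Or.inl e)
    have hg2 : (QuotientGroup.mk g : G ⧸ H) ∉ T := fun e => hg (Or.inr e)
    have hgP : g ≠ P := by rintro rfl; exact hg2 hPT
    have hgQ : g ≠ Q := by rintro rfl; exact hg1 hQy
    rw [hθo g hgP hgQ, hφ1out g hg2 hg1]
  · have hall : ∀ g : G, (QuotientGroup.mk g : G ⧸ H) ∈ insert y T → θ.SameCycle P g := by
      intro g hg
      rcases hg with hg | hg
      · obtain ⟨h, rfl⟩ := hyrep g hg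
        have e1 : κ.SameCycle (r * k1) (r * h) :=
          cos_same H r _ (ori_trans H ψ hψ _) k1 h
        have e2 : φ1.SameCycle (r * k1) (r * h) := by
          refine same_of_eqOn (φ := κ) (fun g => (QuotientGroup.mk g : G ⧸ H) = y) ?_ ?_
            (hmkr k1) e1
          · intro g hg
            obtain ⟨h, rfl⟩ := hyrep g hg
            rw [hκin]
            exact hmkr _
          · intro g hg
            obtain ⟨h, rfl⟩ := hyrep g hg
            rw [hκin, hφ1y]
        exact (merge_aux φ1 hns).trans (merge φ1 hns e2)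
      · have e1 : φ1.SameCycle P g := by
          refine same_of_eqOn (φ := φ) (fun g => (QuotientGroup.mk g : G ⧸ H) ∈ T) hφT hφ1T hPT
            (h3 P g hPT hg)
        exact merge φ1 hns e1
    intro g g' hg hg'
    exact (hall g hg).symm.trans (hall g' hg')
  · intro z hz
    by_cases hzy : z = y
    · rw [hzy, Function.update_self, Function.update_self]
      have hsub : {h : H | θ (r * h) ≠ r * (ori H ψ (!(ε x)) h : H)} ⊆ {k1} := by
        intro h hh
        by_contra hne
        apply hh
        have hhQ : r * (h : G) ≠ Q := by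
          intro e
          apply hne
          have := mul_left_cancel e
          exact Set.mem_singleton_iff.mpr (Subtype.ext this)
        have hhP : r * (h : G) ≠ P := by
          intro e
          have := hmkr h
          rw [e] at this
          rw [this] at hPT
          exact hbx hPT
        rw [hθo _ hhP hhQ, hφ1y]
      have hle : Set.ncard {h : H | θ (r * h) ≠ r * (ori H ψ (!(ε x)) h : H)} ≤ 1 := by
        have := Set.ncard_le_ncard hsub (Set.toFinite _)
        simpa using this
      refine hle.trans ?_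
      by_cases hc0 : c = 0
      · have hbb := hcS hc0 b hb
        have : b ∈ {s : G | s ∈ S ∧ s • y ∈ insert y T} := by
          refine ⟨hb, Or.inr ?_⟩
          rw [hy, smul_smul, hbb, one_smul]
          exact hx
        have : 0 < Set.ncard {s : G | s ∈ S ∧ s • y ∈ insert y T} := by
          rw [Set.ncard_pos (Set.toFinite _)]
          exact ⟨b, this⟩
        omega
      · omega
    · have hzT : z ∈ T := hz.resolve_left hzy
      rw [Function.update_of_ne hzy, Function.update_of_ne hzy]
      have hmkz : ∀ h : H, (QuotientGroup.mk (ρ z * h) : G ⧸ H) = z := by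
        intro h
        conv_rhs => rw [← h0 z hzT]
        rw [QuotientGroup.eq]
        simp
      by_cases hzx : z = x
      · rw [hzx]
        have hsub : {h : H | θ (ρ x * h) ≠ ρ x * (ori H ψ (ε x) h : H)} ⊆
            insert k0 {h : H | φ (ρ x * h) ≠ ρ x * (ori H ψ (ε x) h : H)} := by
          intro h hh
          by_cases hhk : h = k0
          · exact Or.inl hhk
          · right
            intro e
            apply hh
            have hhP : ρ x * (h : G) ≠ P := by
              intro e'
              exact hhk (Subtype.ext (mul_left_cancel e'))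
            have hmx : (QuotientGroup.mk (ρ x * h) : G ⧸ H) ∈ T := by
              have := hmkz h
              rw [hzx] at this
              rw [this]
              exact hx
            have hhQ : ρ x * (h : G) ≠ Q := by
              intro e'
              rw [e', hQy] at hmx
              exact hbx hmx
            rw [hθo _ hhP hhQ, hφ1T _ hmx]
            exact e
        have hle := Set.ncard_le_ncard hsub (Set.toFinite _)
        have hle2 := Set.ncard_insert_le k0 {h : H | φ (ρ x * h) ≠ ρ x * (ori H ψ (ε x) h : H)}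
        have hle3 := h4 x hx
        have hlt : Set.ncard {s : G | s ∈ S ∧ s • x ∈ T} <
            Set.ncard {s : G | s ∈ S ∧ s • x ∈ insert y T} := by
          apply Set.ncard_lt_ncard _ (Set.toFinite _)
          refine ⟨fun s hs => ⟨hs.1, Or.inr hs.2⟩, fun hsub => ?_⟩
          exact hbx (hsub ⟨hb, Or.inl rfl⟩ : b ∈ {s : G | s ∈ S ∧ s • x ∈ T}).2
        omega
      · have heq : {h : H | θ (ρ z * h) ≠ ρ z * (ori H ψ (ε z) h : H)} =
            {h : H | φ (ρ z * h) ≠ ρ z * (ori H ψ (ε z) h : H)} := by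
          ext h
          have hmz := hmkz h
          have hmT : (QuotientGroup.mk (ρ z * h) : G ⧸ H) ∈ T := by rw [hmz]; exact hzT
          have hhP : ρ z * (h : G) ≠ P := by
            intro e'
            have hPx : (QuotientGroup.mk P : G ⧸ H) = x := by
              rw [← h0 x hx, QuotientGroup.eq]
              simp [hP]
            rw [e', hPx] at hmz
            exact hzx hmz.symm
          have hhQ : ρ z * (h : G) ≠ Q := by
            intro e'
            rw [e', hQy] at hmT
            exact hbx hmT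
          simp only [Set.mem_ofPred_eq]
          rw [hθo _ hhP hhQ, hφ1T _ hmT]
        rw [heq]
        refine (h4 z hzT).trans ?_
        have : Set.ncard {s : G | s ∈ S ∧ s • z ∈ T} ≤
            Set.ncard {s : G | s ∈ S ∧ s • z ∈ insert y T} :=
          Set.ncard_le_ncard (fun s hs => ⟨hs.1, Or.inr hs.2⟩) (Set.toFinite _)
        omega

end Pool.Agent.Q240.Cay
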