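import Pool.Agent.Q240.Cay.All

namespace Pool.Agent.Q240.Cay

open Equiv

section
variable {G : Type*} [Group G] (N : Subgroup G) [hN : N.Normal]

/-- The coset `N r`, parametrised by `N`. -/
def cosEquivN (r : G) : N ≃ {g : G // (QuotientGroup.mk g : G ⧸ N) = QuotientGroup.mk r} where
  toFun h := ⟨h * r, by
    rw [QuotientGroup.eq]
    have := hN.conj_mem _ (N.inv_mem h.2) r⁻¹
    simpa [mul_assoc] using this⟩
  invFun g := ⟨g.1 * r⁻¹, by
    have h1 := QuotientGroup.eq.mp g.2.symm
    have := hN.conj_mem _ h1 r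
    simpa [mul_assoc] using this⟩
  left_inv h := by ext; simp
  right_inv g := by ext; simp

open Classical in
/-- A permutation of `N` moved to the coset `N r` and extended by the identity. -/
noncomputable def cosN (r : G) (θ : Perm N) : Perm G := θ.extendDomain (cosEquivN N r)

lemma cosN_apply (r : G) (θ : Perm N) (h : N) : cosN N r θ (h * r) = (θ h : G) * r := by
  classical
  exact θ.extendDomain_apply_image (cosEquivN N r) h

lemma cosN_out (r : G) (θ : Perm N) (g : G)
    (hg : (QuotientGroup.mk g : G ⧸ N) ≠ QuotientGroup.mk r) : cosN N r θ g = g := by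
  classical
  exact θ.extendDomain_apply_not_subtype (cosEquivN N r) hg

end

lemma cosN_same {G : Type*} [Group G] [Finite G] (N : Subgroup G) [N.Normal] (r : G) (θ : Perm N)
    (hθ : ∀ x y, θ.SameCycle x y) (h k : N) : (cosN N r θ).SameCycle (h * r) (k * r) := by
  obtain ⟨n, rfl⟩ := samecycle_nat (hθ h k)
  have : ∀ n : ℕ, ((cosN N r θ) ^ n) (h * r) = ((θ ^ n) h : N) * r := by
    intro n
    induction n with
    | zero => rfl
    | succ n ih =>
      have e1 : ((cosN N r θ) ^ (n + 1)) (h * r) = cosN N r θ (((cosN N r θ) ^ n) (h * r)) := by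
        rw [pow_succ']; rfl
      have e2 : (θ ^ (n + 1)) h = θ ((θ ^ n) h) := by rw [pow_succ']; rfl
      rw [e1, e2, ih, cosN_apply]
  exact ⟨(n : ℤ), by rw [zpow_natCast, this n]⟩

/-- The state of the second construction (normal subgroup, right multiplications). -/
def StN {G : Type*} [Group G] (A : Set G) (N : Subgroup G) [N.Normal] (ψ : Perm N) (S : Set G)
    (T : Set (G ⧸ N)) : Prop :=
  ∃ (φ : Perm G) (ρ : G ⧸ N → G) (ε : G ⧸ N → Bool),
    (∀ x ∈ T, (QuotientGroup.mk (ρ x) : G ⧸ N) = x) ∧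
    (∀ g : G, (QuotientGroup.mk g : G ⧸ N) ∈ T → g⁻¹ * φ g ∈ A) ∧
    (∀ g : G, (QuotientGroup.mk g : G ⧸ N) ∉ T → φ g = g) ∧
    (∀ g g' : G, (QuotientGroup.mk g : G ⧸ N) ∈ T → (QuotientGroup.mk g' : G ⧸ N) ∈ T →
      φ.SameCycle g g') ∧
    (∀ x ∈ T, Set.ncard {h : N | φ (h * ρ x) ≠ (ori N ψ (ε x) h : N) * ρ x} ≤
      Set.ncard {s : G | s ∈ S ∧ x * (QuotientGroup.mk s : G ⧸ N) ∈ T} + 1)

lemma stN_single {G : Type*} [Group G] [Finite G] (A : Set G) (N : Subgroup G) [hN : N.Normal]
    (ψ : Perm N) (hψA : ∀ (h : N) (g : G), g * ((h : G)⁻¹ * (ψ h : G)) * g⁻¹ ∈ A)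
    (hψ : ∀ x y, ψ.SameCycle x y) (S : Set G) : StN A N ψ S {(QuotientGroup.mk 1 : G ⧸ N)} := by
  refine ⟨cosN N 1 ψ, fun _ => 1, fun _ => true, ?_, ?_, ?_, ?_, ?_⟩
  · intro x hx
    exact hx.symm
  · intro g hg
    have hg' : g ∈ N := by
      have := QuotientGroup.eq.mp (Set.mem_singleton_iff.mp hg).symm
      simpa using this
    have e := cosN_apply N 1 ψ ⟨g, hg'⟩
    simp only [mul_one] at e
    rw [e]
    have := hψA ⟨g, hg'⟩ 1
    simpa using this
  · intro g hg
    exact cosN_out N 1 ψ g hg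
  · intro g g' hg hg'
    have h1 : g ∈ N := by
      have := QuotientGroup.eq.mp (Set.mem_singleton_iff.mp hg).symm
      simpa using this
    have h2 : g' ∈ N := by
      have := QuotientGroup.eq.mp (Set.mem_singleton_iff.mp hg').symm
      simpa using this
    have := cosN_same N 1 ψ hψ ⟨g, h1⟩ ⟨g', h2⟩
    simpa using this
  · intro x _
    have : {h : N | cosN N 1 ψ ((h : G) * 1) ≠ (ori N ψ true h : N) * 1} = ∅ := by
      ext h
      simp only [Set.mem_ofPred_eq, Set.mem_empty_iff_false, iff_false, not_not]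
      rw [cosN_apply]
      rfl
    rw [this, Set.ncard_empty]
    exact Nat.zero_le _

lemma stN_add {G : Type*} [Group G] [Finite G] (A : Set G) (hs : ∀ a ∈ A, a⁻¹ ∈ A)
    (N : Subgroup G) [hN : N.Normal] (ψ : Perm N)
    (hψA : ∀ (h : N) (g : G), g * ((h : G)⁻¹ * (ψ h : G)) * g⁻¹ ∈ A)
    (hψ : ∀ x y, ψ.SameCycle x y) (S : Set G) (hSA : S ⊆ A)
    (hcard : Set.ncard S + 1 ≤ Nat.card N) (T : Set (G ⧸ N)) (hT : StN A N ψ S T)
    (x : G ⧸ N) (hx : x ∈ T) (b : G) (hb : b ∈ S) (hbx : x * (QuotientGroup.mk b : G ⧸ N) ∉ T) :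
    StN A N ψ S (insert (x * (QuotientGroup.mk b : G ⧸ N)) T) := by
  classical
  obtain ⟨φ, ρ, ε, h0, h1, h2, h3, h4⟩ := hT
  have hφT : ∀ g : G, (QuotientGroup.mk g : G ⧸ N) ∈ T → (QuotientGroup.mk (φ g) : G ⧸ N) ∈ T := by
    intro g hg
    by_contra hcon
    have := h2 _ hcon
    have e := φ.injective this
    rw [e] at hcon
    exact hcon hg
  have hmkl : ∀ (r : G) (h : N), (QuotientGroup.mk (h * r) : G ⧸ N) = QuotientGroup.mk r := by
    intro r h
    rw [QuotientGroup.eq]
    have := hN.conj_mem _ (N.inv_mem h.2) r⁻¹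
    simpa [mul_assoc] using this
  -- a free edge at `x`
  have hfree : ∃ k0 : N, φ (k0 * ρ x) = (ori N ψ (ε x) k0 : N) * ρ x := by
    by_contra hcon
    push Not at hcon
    have e1 : {h : N | φ (h * ρ x) ≠ (ori N ψ (ε x) h : N) * ρ x} = Set.univ := by
      ext h
      simp [hcon h]
    have e2 := h4 x hx
    rw [e1, Set.ncard_univ] at e2
    have e3 : Set.ncard {s : G | s ∈ S ∧ x * (QuotientGroup.mk s : G ⧸ N) ∈ T} < Set.ncard S := by
      apply Set.ncard_lt_ncard _ (Set.toFinite _)
      refine ⟨fun s hs => hs.1, fun hsub => hbx (hsub hb).2⟩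
    omega
  obtain ⟨k0, hk0⟩ := hfree
  set k1 : N := ori N ψ (ε x) k0 with hk1
  set r : G := ρ x * b with hr
  set y : G ⧸ N := x * (QuotientGroup.mk b : G ⧸ N) with hy
  have hry : (QuotientGroup.mk r : G ⧸ N) = y := by
    rw [hr, hy]
    conv_rhs => rw [← h0 x hx]
    rfl
  set κ := cosN N r (ori N ψ (!(ε x))) with hκ
  have hκout : ∀ g : G, (QuotientGroup.mk g : G ⧸ N) ≠ y → κ g = g := by
    intro g hg
    exact cosN_out N r _ g (by rw [hry]; exact hg)
  have hκin : ∀ h : N, κ (h * r) = (ori N ψ (!(ε x)) h : N) * r := cosN_apply N r _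
  have hyrep : ∀ g : G, (QuotientGroup.mk g : G ⧸ N) = y → ∃ h : N, g = h * r := by
    intro g hg
    rw [← hry] at hg
    refine ⟨⟨g * r⁻¹, ?_⟩, by simp⟩
    have h1 := QuotientGroup.eq.mp hg.symm
    have := hN.conj_mem _ h1 r
    simpa [mul_assoc] using this
  have hmkr : ∀ h : N, (QuotientGroup.mk (h * r) : G ⧸ N) = y := by
    intro h
    rw [hmkl, hry]
  set φ1 : Perm G := φ * κ with hφ1
  have hφ1T : ∀ g : G, (QuotientGroup.mk g : G ⧸ N) ∈ T → φ1 g = φ g := by
    intro g hg
    have : κ g = g := hκout g (fun e => hbx (e ▸ hg))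
    rw [hφ1, Perm.mul_apply, this]
  have hφ1y : ∀ h : N, φ1 (h * r) = (ori N ψ (!(ε x)) h : N) * r := by
    intro h
    rw [hφ1, Perm.mul_apply, hκin]
    exact h2 _ (by rw [hmkr]; exact hbx)
  have hφ1out : ∀ g : G, (QuotientGroup.mk g : G ⧸ N) ∉ T → (QuotientGroup.mk g : G ⧸ N) ≠ y →
      φ1 g = g := by
    intro g hg hg'
    rw [hφ1, Perm.mul_apply, hκout g hg', h2 g hg]
  set P : G := k0 * ρ x with hP
  set Q : G := k1 * r with hQ
  have hPx : (QuotientGroup.mk P : G ⧸ N) = x := by rw [hP, hmkl, h0 x hx]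
  have hPT : (QuotientGroup.mk P : G ⧸ N) ∈ T := by
    rw [hPx]
    exact hx
  have hQy : (QuotientGroup.mk Q : G ⧸ N) = y := hmkr k1
  have hφ1P : φ1 P = k1 * ρ x := by rw [hφ1T P hPT, hP, hk0]
  have hφ1Q : φ1 Q = P * b := by
    rw [hQ, hφ1y, hk1, ori_not, hr, hP, mul_assoc]
  have hns : ¬ φ1.SameCycle P Q := by
    intro hs
    have := invariant (φ := φ1) (fun g : G => (QuotientGroup.mk g : G ⧸ N) ∈ T)
      (fun g hg => by rw [hφ1T g hg]; exact hφT g hg) hPT hs
    rw [hQy] at this
    exact hbx this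
  set θ : Perm G := φ1 * swap P Q with hθ
  have hθP : θ P = P * b := by rw [hθ, Perm.mul_apply, swap_apply_left, hφ1Q]
  have hθQ : θ Q = k1 * ρ x := by rw [hθ, Perm.mul_apply, swap_apply_right, hφ1P]
  have hθo : ∀ g, g ≠ P → g ≠ Q → θ g = φ1 g := by
    intro g hgP hgQ
    rw [hθ, Perm.mul_apply, swap_apply_of_ne_of_ne hgP hgQ]
  have hbA : b ∈ A := hSA hb
  have hoA : ∀ (e : Bool) (h : N) (g : G), g * ((h : G)⁻¹ * (ori N ψ e h : G)) * g⁻¹ ∈ A := by
    intro e h g
    cases e
    · have := hs _ (hψA (ψ.symm h) g)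
      rw [Equiv.apply_symm_apply] at this
      have e2 : g * ((h : G)⁻¹ * (ori N ψ false h : G)) * g⁻¹ =
          (g * (((ψ.symm h : N) : G)⁻¹ * (h : G)) * g⁻¹)⁻¹ := by
        show g * ((h : G)⁻¹ * ((ψ.symm h : N) : G)) * g⁻¹ = _
        group
      rw [e2]
      exact this
    · exact hψA h g
  refine ⟨θ, Function.update ρ y r, Function.update ε y (!(ε x)), ?_, ?_, ?_, ?_, ?_⟩
  · intro z hz
    by_cases hzy : z = y
    · rw [hzy, Function.update_self]
      exact hry
    · rw [Function.update_of_ne hzy]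
      exact h0 z (hz.resolve_left hzy)
  · intro g hg
    by_cases hgP : g = P
    · rw [hgP, hθP, inv_mul_cancel_left]
      exact hbA
    · by_cases hgQ : g = Q
      · rw [hgQ, hθQ]
        have e : Q⁻¹ * (k1 * ρ x) = b⁻¹ := by rw [hQ, hr]; group
        rw [e]
        exact hs b hbA
      · rw [hθo g hgP hgQ]
        rcases hg with hg | hg
        · obtain ⟨h, rfl⟩ := hyrep g hg
          rw [hφ1y]
          have e : ((h : G) * r)⁻¹ * ((ori N ψ (!(ε x)) h : N) * r) =
              r⁻¹ * ((h : G)⁻¹ * (ori N ψ (!(ε x)) h : N)) * r⁻¹⁻¹ := by group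
          rw [e]
          exact hoA _ h _
        · rw [hφ1T g hg]
          exact h1 g hg
  · intro g hg
    have hg1 : (QuotientGroup.mk g : G ⧸ N) ≠ y := fun e => hg (Or.inl e)
    have hg2 : (QuotientGroup.mk g : G ⧸ N) ∉ T := fun e => hg (Or.inr e)
    have hgP : g ≠ P := by rintro rfl; exact hg2 hPT
    have hgQ : g ≠ Q := by rintro rfl; exact hg1 hQy
    rw [hθo g hgP hgQ, hφ1out g hg2 hg1]
  · have hall : ∀ g : G, (QuotientGroup.mk g : G ⧸ N) ∈ insert y T → θ.SameCycle P g := by
      intro g hg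
      rcases hg with hg | hg
      · obtain ⟨h, rfl⟩ := hyrep g hg
        have e1 : κ.SameCycle (k1 * r) (h * r) :=
          cosN_same N r _ (ori_trans N ψ hψ _) k1 h
        have e2 : φ1.SameCycle (k1 * r) (h * r) := by
          refine same_of_eqOn (φ := κ) (fun g => (QuotientGroup.mk g : G ⧸ N) = y) ?_ ?_
            (hmkr k1) e1
          · intro g hg
            obtain ⟨h, rfl⟩ := hyrep g hg
            rw [hκin]
            exact hmkr _
          · intro g hg
            obtain ⟨h, rfl⟩ := hyrep g hg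
            rw [hκin, hφ1y]
        exact (merge_aux φ1 hns).trans (merge φ1 hns e2)
      · have e1 : φ1.SameCycle P g := by
          refine same_of_eqOn (φ := φ) (fun g => (QuotientGroup.mk g : G ⧸ N) ∈ T) hφT hφ1T hPT
            (h3 P g hPT hg)
        exact merge φ1 hns e1
    intro g g' hg hg'
    exact (hall g hg).symm.trans (hall g' hg')
  · intro z hz
    by_cases hzy : z = y
    · rw [hzy, Function.update_self, Function.update_self]
      have hsub : {h : N | θ (h * r) ≠ (ori N ψ (!(ε x)) h : N) * r} ⊆ {k1} := by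
        intro h hh
        by_contra hne
        apply hh
        have hhQ : (h : G) * r ≠ Q := by
          intro e
          apply hne
          have := mul_right_cancel e
          exact Set.mem_singleton_iff.mpr (Subtype.ext this)
        have hhP : (h : G) * r ≠ P := by
          intro e
          have := hmkr h
          rw [e] at this
          rw [this] at hPT
          exact hbx hPT
        rw [hθo _ hhP hhQ, hφ1y]
      have hle : Set.ncard {h : N | θ (h * r) ≠ (ori N ψ (!(ε x)) h : N) * r} ≤ 1 := by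
        have := Set.ncard_le_ncard hsub (Set.toFinite _)
        simpa using this
      omega
    · have hzT : z ∈ T := hz.resolve_left hzy
      rw [Function.update_of_ne hzy, Function.update_of_ne hzy]
      have hmkz : ∀ h : N, (QuotientGroup.mk (h * ρ z) : G ⧸ N) = z := by
        intro h
        rw [hmkl, h0 z hzT]
      by_cases hzx : z = x
      · rw [hzx]
        have hsub : {h : N | θ (h * ρ x) ≠ (ori N ψ (ε x) h : N) * ρ x} ⊆
            insert k0 {h : N | φ (h * ρ x) ≠ (ori N ψ (ε x) h : N) * ρ x} := by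
          intro h hh
          by_cases hhk : h = k0
          · exact Or.inl hhk
          · right
            intro e
            apply hh
            have hhP : (h : G) * ρ x ≠ P := by
              intro e'
              exact hhk (Subtype.ext (mul_right_cancel e'))
            have hmx : (QuotientGroup.mk (h * ρ x) : G ⧸ N) ∈ T := by
              have := hmkz h
              rw [hzx] at this
              rw [this]
              exact hx
            have hhQ : (h : G) * ρ x ≠ Q := by
              intro e'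
              rw [e', hQy] at hmx
              exact hbx hmx
            rw [hθo _ hhP hhQ, hφ1T _ hmx]
            exact e
        have hle := Set.ncard_le_ncard hsub (Set.toFinite _)
        have hle2 := Set.ncard_insert_le k0 {h : N | φ (h * ρ x) ≠ (ori N ψ (ε x) h : N) * ρ x}
        have hle3 := h4 x hx
        have hlt : Set.ncard {s : G | s ∈ S ∧ x * (QuotientGroup.mk s : G ⧸ N) ∈ T} <
            Set.ncard {s : G | s ∈ S ∧ x * (QuotientGroup.mk s : G ⧸ N) ∈ insert y T} := by
          apply Set.ncard_lt_ncard _ (Set.toFinite _)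
          refine ⟨fun s hs => ⟨hs.1, Or.inr hs.2⟩, fun hsub => ?_⟩
          exact hbx (hsub ⟨hb, Or.inl rfl⟩ :
            b ∈ {s : G | s ∈ S ∧ x * (QuotientGroup.mk s : G ⧸ N) ∈ T}).2
        omega
      · have heq : {h : N | θ (h * ρ z) ≠ (ori N ψ (ε z) h : N) * ρ z} =
            {h : N | φ (h * ρ z) ≠ (ori N ψ (ε z) h : N) * ρ z} := by
          ext h
          have hmz := hmkz h
          have hmT : (QuotientGroup.mk (h * ρ z) : G ⧸ N) ∈ T := by rw [hmz]; exact hzT
          have hhP : (h : G) * ρ z ≠ P := by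
            intro e'
            rw [e', hPx] at hmz
            exact hzx hmz.symm
          have hhQ : (h : G) * ρ z ≠ Q := by
            intro e'
            rw [e', hQy] at hmT
            exact hbx hmT
          simp only [Set.mem_ofPred_eq]
          rw [hθo _ hhP hhQ, hφ1T _ hmT]
        rw [heq]
        refine (h4 z hzT).trans ?_
        have : Set.ncard {s : G | s ∈ S ∧ z * (QuotientGroup.mk s : G ⧸ N) ∈ T} ≤
            Set.ncard {s : G | s ∈ S ∧ z * (QuotientGroup.mk s : G ⧸ N) ∈ insert y T} :=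
          Set.ncard_le_ncard (fun s hs => ⟨hs.1, Or.inr hs.2⟩) (Set.toFinite _)
        omega

end Pool.Agent.Q240.Cay
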